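import Mathlib

/-!
# Algebras of representative functions on a group

`alg V` is the algebra of functions on `Γ` generated by the matrix coefficients of `V` and of its
dual. It has no proper nonzero ideal stable under left translations.
-/

namespace Pool.Agent.GO

open Matrix

section defs

variable {F : Type*} [Field F] {Γ : Type*} [Group Γ]

/-- left translation of functions -/
def lt (h : Γ) : (Γ → F) →ₐ[F] (Γ → F) where
  toFun f := fun g => f (h * g)
  map_one' := rfl
  map_mul' _ _ := rfl
  map_zero' := rfl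
  map_add' _ _ := rfl
  commutes' _ := rfl

/-- right translation of functions -/
def rt (h : Γ) : (Γ → F) →ₐ[F] (Γ → F) where
  toFun f := fun g => f (g * h)
  map_one' := rfl
  map_mul' _ _ := rfl
  map_zero' := rfl
  map_add' _ _ := rfl
  commutes' _ := rfl

/-- inversion -/
def iv : (Γ → F) →ₐ[F] (Γ → F) where
  toFun f := fun g => f g⁻¹
  map_one' := rfl
  map_mul' _ _ := rfl
  map_zero' := rfl
  map_add' _ _ := rfl
  commutes' _ := rfl

@[simp] theorem lt_apply (h : Γ) (f : Γ → F) (g : Γ) : lt h f g = f (h * g) := rfl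
@[simp] theorem rt_apply (h : Γ) (f : Γ → F) (g : Γ) : rt h f g = f (g * h) := rfl
@[simp] theorem iv_apply (f : Γ → F) (g : Γ) : iv f g = f g⁻¹ := rfl

theorem lt_lt (h k : Γ) (f : Γ → F) : lt h (lt k f) = lt (k * h) f := by
  ext g; simp [mul_assoc]

theorem lt_one (f : Γ → F) : lt 1 f = f := by ext g; simp

theorem iv_iv (f : Γ → F) : iv (iv f) = f := by ext g; simp

/-- the algebra generated by the matrix coefficients of `V` and of its dual -/
def alg {ι : Type*} [Fintype ι] [DecidableEq ι] (V : Γ →* Matrix ι ι F) :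
    Subalgebra F (Γ → F) :=
  Algebra.adjoin F (Set.range (fun p : ι × ι => fun g => V g p.1 p.2) ∪
    Set.range (fun p : ι × ι => fun g => V g⁻¹ p.1 p.2))

/-- the translates of `f` span a finite-dimensional space -/
def LF (f : Γ → F) : Prop := ∃ N : Submodule F (Γ → F), N.FG ∧ ∀ h, lt h f ∈ N

end defs

section alg

variable {F : Type*} [Field F] {Γ : Type*} [Group Γ]
variable {ι : Type*} [Fintype ι] [DecidableEq ι] (V : Γ →* Matrix ι ι F)

theorem coef_mem (i j : ι) : (fun g => V g i j) ∈ alg V :=
  Algebra.subset_adjoin (Or.inl ⟨(i, j), rfl⟩)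

theorem coefInv_mem (i j : ι) : (fun g => V g⁻¹ i j) ∈ alg V :=
  Algebra.subset_adjoin (Or.inr ⟨(i, j), rfl⟩)

theorem alg_le {T : Subalgebra F (Γ → F)} (h1 : ∀ i j, (fun g => V g i j) ∈ T)
    (h2 : ∀ i j, (fun g => V g⁻¹ i j) ∈ T) : alg V ≤ T := by
  apply Algebra.adjoin_le
  rintro f (⟨p, rfl⟩ | ⟨p, rfl⟩)
  · exact h1 _ _
  · exact h2 _ _

omit [Group Γ] in
theorem sum_mem_fun {T : Subalgebra F (Γ → F)} {κ : Type*} (s : Finset κ) (c : κ → F)
    (f : κ → Γ → F) (hf : ∀ k ∈ s, f k ∈ T) : (fun g => ∑ k ∈ s, c k * f k g) ∈ T := by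
  have : (fun g => ∑ k ∈ s, c k * f k g) = ∑ k ∈ s, c k • f k := by
    ext g; simp [Finset.sum_apply]
  rw [this]
  exact T.sum_mem fun k hk => T.smul_mem (hf k hk) _

theorem alg_lt (h : Γ) {f : Γ → F} (hf : f ∈ alg V) : lt h f ∈ alg V := by
  have : alg V ≤ (alg V).comap (lt h) := by
    apply alg_le
    · intro i j
      show (fun g => V (h * g) i j) ∈ alg V
      have : (fun g => V (h * g) i j) = fun g => ∑ k, V h i k * V g k j := by
        ext g; rw [map_mul, Matrix.mul_apply]
      rw [this]
      exact sum_mem_fun _ _ (fun k g => V g k j) fun k _ => coef_mem V k j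
    · intro i j
      show (fun g => V (h * g)⁻¹ i j) ∈ alg V
      have : (fun g => V (h * g)⁻¹ i j) = fun g => ∑ k, V h⁻¹ k j * V g⁻¹ i k := by
        ext g; rw [_root_.mul_inv_rev, map_mul, Matrix.mul_apply]
        exact Finset.sum_congr rfl fun _ _ => mul_comm _ _
      rw [this]
      exact sum_mem_fun _ _ (fun k g => V g⁻¹ i k) fun k _ => coefInv_mem V i k
  exact this hf

theorem alg_rt (h : Γ) {f : Γ → F} (hf : f ∈ alg V) : rt h f ∈ alg V := by
  have : alg V ≤ (alg V).comap (rt h) := by
    apply alg_le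
    · intro i j
      show (fun g => V (g * h) i j) ∈ alg V
      have : (fun g => V (g * h) i j) = fun g => ∑ k, V h k j * V g i k := by
        ext g; rw [map_mul, Matrix.mul_apply]
        exact Finset.sum_congr rfl fun _ _ => mul_comm _ _
      rw [this]
      exact sum_mem_fun _ _ (fun k g => V g i k) fun k _ => coef_mem V i k
    · intro i j
      show (fun g => V (g * h)⁻¹ i j) ∈ alg V
      have : (fun g => V (g * h)⁻¹ i j) = fun g => ∑ k, V h⁻¹ i k * V g⁻¹ k j := by
        ext g; rw [_root_.mul_inv_rev, map_mul, Matrix.mul_apply]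
      rw [this]
      exact sum_mem_fun _ _ (fun k g => V g⁻¹ k j) fun k _ => coefInv_mem V k j
  exact this hf

theorem alg_iv {f : Γ → F} (hf : f ∈ alg V) : iv f ∈ alg V := by
  have : alg V ≤ (alg V).comap iv := by
    apply alg_le
    · intro i j
      exact coefInv_mem V i j
    · intro i j
      show (fun g : Γ => V (g⁻¹)⁻¹ i j) ∈ alg V
      simp only [inv_inv]
      exact coef_mem V i j
  exact this hf

theorem LF_const (c : F) : LF (fun _ : Γ => c) :=
  ⟨Submodule.span F {fun _ => c}, Submodule.fg_span (Set.finite_singleton _),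
    fun _ => Submodule.subset_span rfl⟩

theorem LF_add {f f' : Γ → F} (hf : LF f) (hf' : LF f') : LF (f + f') := by
  obtain ⟨N, hN, h1⟩ := hf
  obtain ⟨N', hN', h2⟩ := hf'
  refine ⟨N ⊔ N', hN.sup hN', fun h => ?_⟩
  rw [map_add]
  exact Submodule.add_mem_sup (h1 h) (h2 h)

theorem LF_mul {f f' : Γ → F} (hf : LF f) (hf' : LF f') : LF (f * f') := by
  obtain ⟨N, hN, h1⟩ := hf
  obtain ⟨N', hN', h2⟩ := hf'
  refine ⟨N * N', hN.mul hN', fun h => ?_⟩
  rw [map_mul]
  exact Submodule.mul_mem_mul (h1 h) (h2 h)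

theorem LF_alg {f : Γ → F} (hf : f ∈ alg V) : LF f := by
  unfold alg at hf
  induction hf using Algebra.adjoin_induction with
  | mem x hx =>
    rcases hx with ⟨p, rfl⟩ | ⟨p, rfl⟩
    · refine ⟨Submodule.span F (Set.range fun k => (fun g => V g k p.2)),
        Submodule.fg_span (Set.finite_range _), fun h => ?_⟩
      have : lt h (fun g => V g p.1 p.2) = ∑ k, V h p.1 k • (fun g => V g k p.2) := by
        ext g
        simp only [lt_apply, map_mul, Matrix.mul_apply, Finset.sum_apply, Pi.smul_apply,
          smul_eq_mul]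
      rw [this]
      exact Submodule.sum_mem _ fun k _ =>
        Submodule.smul_mem _ _ (Submodule.subset_span ⟨k, rfl⟩)
    · refine ⟨Submodule.span F (Set.range fun k => (fun g => V g⁻¹ p.1 k)),
        Submodule.fg_span (Set.finite_range _), fun h => ?_⟩
      have : lt h (fun g => V g⁻¹ p.1 p.2) = ∑ k, V h⁻¹ k p.2 • (fun g => V g⁻¹ p.1 k) := by
        ext g
        simp only [lt_apply, _root_.mul_inv_rev, map_mul, Matrix.mul_apply, Finset.sum_apply,
          Pi.smul_apply, smul_eq_mul]
        exact Finset.sum_congr rfl fun _ _ => mul_comm _ _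
      rw [this]
      exact Submodule.sum_mem _ fun k _ =>
        Submodule.smul_mem _ _ (Submodule.subset_span ⟨k, rfl⟩)
  | algebraMap r => exact LF_const r
  | add x y _ _ hx hy => exact LF_add hx hy
  | mul x y _ _ hx hy => exact LF_mul hx hy

/-- the function algebra has no nonzero left-translation-stable subset of the form of an ideal:
if an ideal stable under left translations contains a function not vanishing at `1`,
it is everything -/
theorem one_mem_of_stable (A : Subalgebra F (Γ → F)) (hrt : ∀ f ∈ A, ∀ h, rt h f ∈ A)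
    (hiv : ∀ f ∈ A, iv f ∈ A) (J : Submodule F (Γ → F))
    (hJA : ∀ f ∈ A, ∀ j ∈ J, f * j ∈ J)
    (f : Γ → F) (hfA : f ∈ A) (hLF : LF f) (hJ : ∀ h, lt h f ∈ J) (h1 : f 1 ≠ 0) :
    (1 : Γ → F) ∈ J := by
  classical
  obtain ⟨N, hN, hfN⟩ := hLF
  set W : Submodule F (Γ → F) := Submodule.span F (Set.range fun h => lt h f) with hW
  have hWN : W ≤ N := Submodule.span_le.mpr (by rintro _ ⟨h, rfl⟩; exact hfN h)
  have : FiniteDimensional F N := Module.Finite.iff_fg.mpr hN
  have : FiniteDimensional F W := Submodule.finiteDimensional_of_le hWN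
  have hWJ : W ≤ J := Submodule.span_le.mpr (by rintro _ ⟨h, rfl⟩; exact hJ h)
  have hmem : ∀ h, lt h f ∈ W := fun h => Submodule.subset_span ⟨h, rfl⟩
  -- evaluations span the dual of `W`
  let ev : Γ → Module.Dual F W := fun g =>
    (LinearMap.proj g : (Γ → F) →ₗ[F] F).comp W.subtype
  have hev : ∀ g (w : W), ev g w = w.1 g := fun g w => rfl
  have hspan : Submodule.span F (Set.range ev) = ⊤ := by
    have hco : (Submodule.span F (Set.range ev)).dualCoannihilator = ⊥ := by
      rw [eq_bot_iff]
      intro w hw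
      rw [Submodule.mem_dualCoannihilator] at hw
      rw [Submodule.mem_bot]
      apply Subtype.ext
      ext g
      have := hw (ev g) (Submodule.subset_span ⟨g, rfl⟩)
      rw [hev] at this
      simpa using this
    have := Subspace.dualCoannihilator_dualAnnihilator_eq
      (W := Submodule.span F (Set.range ev))
    rw [← this, hco, Submodule.dualAnnihilator_bot]
  -- coordinate functions are in `A`
  have hcoord : ∀ φ : Module.Dual F W, (fun h => φ ⟨lt h f, hmem h⟩) ∈ A := by
    intro φ
    have hφ : φ ∈ Submodule.span F (Set.range ev) := by rw [hspan]; trivial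
    induction hφ using Submodule.span_induction with
    | mem x hx =>
      obtain ⟨g, rfl⟩ := hx
      exact hrt f hfA g
    | zero => exact A.zero_mem
    | add x y _ _ hx hy => exact A.add_mem hx hy
    | smul a x _ hx => exact A.smul_mem hx a
  let e := Module.finBasis F W
  have hkey : (fun _ : Γ => f 1) =
      ∑ i, (iv (fun h => e.coord i ⟨lt h f, hmem h⟩)) * (e i).1 := by
    ext g
    have h2 : (⟨lt g⁻¹ f, hmem g⁻¹⟩ : W) = ∑ i, e.coord i ⟨lt g⁻¹ f, hmem g⁻¹⟩ • e i := by
      simp [e.sum_repr]
    have h3 := congrArg (fun w : W => w.1 g) h2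
    simp only [lt_apply, inv_mul_cancel] at h3
    refine h3.trans ?_
    rw [Submodule.coe_sum]
    simp only [Finset.sum_apply, Submodule.coe_smul, Pi.smul_apply, smul_eq_mul, Pi.mul_apply,
      iv_apply]
  have h4 : (fun _ : Γ => f 1) ∈ J := by
    rw [hkey]
    exact Submodule.sum_mem _ fun i _ => hJA _ (hiv _ (hcoord _)) _ (hWJ (e i).2)
  have h5 : (1 : Γ → F) = (f 1)⁻¹ • (fun _ : Γ => f 1) := by
    ext g; simp [h1]
  rw [h5]
  exact J.smul_mem _ h4

end alg

end Pool.Agent.GO
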