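import Mathlib

/-!
# The kernel lemma

Two representations `a` (any dimension) and `b` (irreducible of dimension `2`) of a group `G`
over a field of characteristic `0` such that `a x` and `b x` have a common eigenvalue for every
`x`. Then the kernel of `a` is contained in the kernel of `b`.
-/

namespace Pool.Agent.GO

open Matrix Polynomial

/-- The matrices `X` and `Y` have a common eigenvalue (in the base field). -/
def CommonEigenvalue {F : Type*} [Field F] {ι κ : Type*} [Fintype ι] [DecidableEq ι] [Fintype κ]
    [DecidableEq κ] (X : Matrix ι ι F) (Y : Matrix κ κ F) : Prop :=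
  ∃ μ : F, X.charpoly.IsRoot μ ∧ Y.charpoly.IsRoot μ

section ker

variable {F : Type*} [Field F]

theorem isRoot_two (Y : Matrix (Fin 2) (Fin 2) F) (μ : F) :
    Y.charpoly.IsRoot μ ↔ μ ^ 2 - Y.trace * μ + Y.det = 0 := by
  rw [Matrix.charpoly_fin_two]
  simp [Polynomial.IsRoot]

theorem one_add_pow_of_sq {n : Matrix (Fin 2) (Fin 2) F} (hn : n * n = 0) (k : ℕ) :
    (1 + n) ^ k = 1 + (k : F) • n := by
  induction k with
  | zero => simp
  | succ k ih =>
    rw [pow_succ, ih]
    have h1 : (1 + (k : F) • n) * (1 + n) = 1 + n + (k : F) • n + (k : F) • (n * n) := by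
      rw [mul_add, mul_one, add_mul, one_mul, smul_mul_assoc]
      abel
    rw [h1, hn, smul_zero, add_zero]
    push_cast
    rw [add_smul, one_smul]
    abel

/-- a quadratic polynomial function on `ℕ` with finitely many values is constant -/
theorem quad_finite [CharZero F] (t0 t1 t2 : F) (T : Set F) (hT : T.Finite)
    (h : ∀ k : ℕ, t0 + t1 * k + t2 * k ^ 2 ∈ T) : t2 = 0 := by
  have := hT.to_subtype
  let f : ℕ → T := fun k => ⟨_, h k⟩
  obtain ⟨y, hy⟩ := Finite.exists_infinite_fiber f
  have hinf : (f ⁻¹' {y}).Infinite := Set.infinite_coe_iff.mp hy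
  let p : F[X] := C (t0 - y.1) + C t1 * X + C t2 * X ^ 2
  have hp : p = 0 := by
    apply Polynomial.eq_zero_of_infinite_isRoot
    have hinj : Function.Injective (fun k : ℕ => (k : F)) := Nat.cast_injective
    refine Set.Infinite.mono ?_ (hinf.image hinj.injOn)
    rintro _ ⟨k, hk, rfl⟩
    have h1 : (f k).1 = y.1 := congrArg Subtype.val hk
    have h2 : t0 + t1 * k + t2 * k ^ 2 = y.1 := h1
    simp only [Set.mem_ofPred_eq, Polynomial.IsRoot, p]
    simp only [eval_add, eval_C, eval_mul, eval_X, eval_pow]
    rw [← h2]; ring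
  have h3 : p.coeff 2 = t2 := by
    simp [p]
  rw [← h3, hp, coeff_zero]

variable {G : Type*} [Group G] {ι : Type*} [Fintype ι] [DecidableEq ι]
  (a : G →* Matrix ι ι F) (b : G →* Matrix (Fin 2) (Fin 2) F)

theorem hom_inv_mul (x : G) : b x⁻¹ * b x = 1 := by rw [← map_mul, inv_mul_cancel, map_one]
theorem hom_mul_inv (x : G) : b x * b x⁻¹ = 1 := by rw [← map_mul, mul_inv_cancel, map_one]

theorem hom_det_ne (x : G) : (b x).det ≠ 0 := by
  intro h
  have h1 := congrArg Matrix.det (hom_mul_inv b x)
  rw [Matrix.det_mul, h, Matrix.det_one, zero_mul] at h1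
  exact zero_ne_one h1

/-- if `Y` has eigenvalue `μ` and nonzero determinant `c` then its trace is `μ + c / μ` -/
theorem trace_eq_of_root {Y : Matrix (Fin 2) (Fin 2) F} {μ c : F} (hc : Y.det = c) (hc0 : c ≠ 0)
    (h : Y.charpoly.IsRoot μ) : μ ≠ 0 ∧ Y.trace = μ + c / μ := by
  rw [isRoot_two, hc] at h
  have hμ : μ ≠ 0 := by
    rintro rfl
    apply hc0
    simpa using h
  refine ⟨hμ, ?_⟩
  field_simp
  linear_combination -h

theorem unip [CharZero F] (hspan : Submodule.span F (Set.range b) = ⊤)
    (hsh : ∀ x, CommonEigenvalue (a x) (b x)) (x : G) (hx : a x = 1)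
    (n : Matrix (Fin 2) (Fin 2) F) (hn : b x = 1 + n) (hnn : n * n = 0) : n = 0 := by
  have hinv : b x⁻¹ = 1 - n := by
    have h1 : b x * (1 - n) = 1 := by
      rw [hn]
      have : (1 + n) * (1 - n) = 1 - n * n := by noncomm_ring
      rw [this, hnn, sub_zero]
    calc b x⁻¹ = b x⁻¹ * (b x * (1 - n)) := by rw [h1, mul_one]
      _ = (b x⁻¹ * b x) * (1 - n) := by rw [mul_assoc]
      _ = 1 - n := by rw [hom_inv_mul, one_mul]
  have key : ∀ y z, (n * b y * n * b z).trace = 0 := by
    intro y z
    set c0 := (b y).det * (b z).det with hc0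
    have hc0' : c0 ≠ 0 := mul_ne_zero (hom_det_ne b y) (hom_det_ne b z)
    let T : Set F := (fun μ : F => μ + c0 / μ) '' ((a y * a z).charpoly.rootSet F)
    have hT : T.Finite := (Polynomial.rootSet_finite _ _).image _
    have hxinv : a x⁻¹ = 1 := by
      have : a x * a x⁻¹ = 1 := by rw [← map_mul, mul_inv_cancel, map_one]
      rwa [hx, one_mul] at this
    have htr : ∀ k : ℕ, (b (x ^ k * y * x⁻¹ ^ k * z)).trace =
        (b y * b z).trace + ((n * b y * b z).trace - (b y * n * b z).trace) * k +
          (-(n * b y * n * b z).trace) * k ^ 2 := by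
      intro k
      have h1 : b (x ^ k) = 1 + (k : F) • n := by
        rw [map_pow, hn, one_add_pow_of_sq hnn]
      have h2 : b (x⁻¹ ^ k) = 1 - (k : F) • n := by
        have hnn' : (-n) * (-n) = 0 := by rw [neg_mul_neg, hnn]
        rw [map_pow, hinv, sub_eq_add_neg, one_add_pow_of_sq hnn', smul_neg, ← sub_eq_add_neg]
      rw [map_mul, map_mul, map_mul, h1, h2]
      have h3 : (1 + (k : F) • n) * b y * (1 - (k : F) • n) * b z =
          b y * b z + (k : F) • (n * b y * b z) - (k : F) • (b y * n * b z) -
            ((k : F) * k) • (n * b y * n * b z) := by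
        simp only [add_mul, mul_sub, sub_mul, one_mul, mul_one, smul_mul_assoc, mul_smul_comm,
          smul_add, smul_smul]
        abel
      rw [h3]
      simp only [Matrix.trace_sub, Matrix.trace_add, Matrix.trace_smul, smul_eq_mul]
      ring
    have hmem : ∀ k : ℕ, (b y * b z).trace +
        ((n * b y * b z).trace - (b y * n * b z).trace) * k +
          (-(n * b y * n * b z).trace) * k ^ 2 ∈ T := by
      intro k
      rw [← htr k]
      obtain ⟨μ, h1, h2⟩ := hsh (x ^ k * y * x⁻¹ ^ k * z)
      have h3 : a (x ^ k * y * x⁻¹ ^ k * z) = a y * a z := by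
        rw [map_mul, map_mul, map_mul, map_pow, map_pow, hx, hxinv, one_pow, one_mul, mul_one]
      have h4 : (b (x ^ k * y * x⁻¹ ^ k * z)).det = c0 := by
        rw [map_mul, map_mul, map_mul, det_mul, det_mul, det_mul, map_pow, map_pow, det_pow,
          det_pow]
        have h5 : (b x).det * (b x⁻¹).det = 1 := by
          rw [← det_mul, hom_mul_inv, det_one]
        calc (b x).det ^ k * (b y).det * (b x⁻¹).det ^ k * (b z).det
            = ((b x).det * (b x⁻¹).det) ^ k * ((b y).det * (b z).det) := by
              rw [mul_pow]; ring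
          _ = c0 := by rw [h5, one_pow, one_mul]
      obtain ⟨h5, h6⟩ := trace_eq_of_root h4 hc0' h2
      refine ⟨μ, ?_, h6.symm⟩
      rw [h3] at h1
      rw [Polynomial.mem_rootSet]
      refine ⟨(Matrix.charpoly_monic _).ne_zero, ?_⟩
      rw [Polynomial.coe_aeval_eq_eval]
      exact h1
    have := quad_finite _ _ _ T hT hmem
    exact neg_eq_zero.mp this
  have key2 : ∀ M N : Matrix (Fin 2) (Fin 2) F, (n * M * n * N).trace = 0 := by
    have h1 : ∀ z, ∀ M : Matrix (Fin 2) (Fin 2) F, (n * M * n * b z).trace = 0 := by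
      intro z M
      have hM : M ∈ Submodule.span F (Set.range b) := by rw [hspan]; trivial
      induction hM using Submodule.span_induction with
      | mem M hM =>
        obtain ⟨y, rfl⟩ := hM
        exact key y z
      | zero => simp
      | add M N _ _ hM hN =>
        rw [mul_add, add_mul, add_mul, Matrix.trace_add, hM, hN, add_zero]
      | smul c M _ hM =>
        rw [mul_smul_comm, smul_mul_assoc, smul_mul_assoc, Matrix.trace_smul, hM, smul_zero]
    intro M N
    have hN : N ∈ Submodule.span F (Set.range b) := by rw [hspan]; trivial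
    induction hN using Submodule.span_induction with
    | mem N hN =>
      obtain ⟨y, rfl⟩ := hN
      exact h1 y M
    | zero => simp
    | add N N' _ _ hM hN =>
      rw [mul_add, Matrix.trace_add, hM, hN, add_zero]
    | smul c N _ hN =>
      rw [mul_smul_comm, Matrix.trace_smul, hN, smul_zero]
  ext i j
  have h1 := key2 (Matrix.single j i 1) (Matrix.single j i 1)
  have h2 : (n * Matrix.single j i 1 * n * Matrix.single j i 1).trace = n i j * n i j := by
    fin_cases i <;> fin_cases j <;>
      simp [Matrix.trace, Matrix.mul_apply, Fin.sum_univ_two, Matrix.single_apply]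
  rw [h2] at h1
  exact mul_self_eq_zero.mp h1

theorem ker_le [CharZero F] (hspan : Submodule.span F (Set.range b) = ⊤)
    (hsh : ∀ x, CommonEigenvalue (a x) (b x)) (x : G) (hx : a x = 1) : b x = 1 := by
  -- the only root of the charpoly of the identity is 1
  have hroot : ∀ μ : F, (1 : Matrix ι ι F).charpoly.IsRoot μ → μ = 1 := by
    intro μ hμ
    rw [Matrix.charpoly_one] at hμ
    simp only [Polynomial.IsRoot, eval_pow, eval_sub, eval_X, eval_one] at hμ
    by_contra hne
    exact pow_ne_zero _ (sub_ne_zero.mpr hne) hμ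
  have hcomm : ∀ y, b x * b y = b y * b x := by
    intro y
    set w := x * y * x⁻¹ * y⁻¹ with hw
    have hxinv : a x⁻¹ = 1 := by
      have : a x * a x⁻¹ = 1 := by rw [← map_mul, mul_inv_cancel, map_one]
      rwa [hx, one_mul] at this
    have haw : a w = 1 := by
      rw [hw, map_mul, map_mul, map_mul, hx, hxinv, one_mul, mul_one, ← map_mul,
        mul_inv_cancel, map_one]
    have hdet : (b w).det = 1 := by
      rw [hw, map_mul, map_mul, map_mul, det_mul, det_mul, det_mul]
      have h5 : (b x).det * (b x⁻¹).det = 1 := by rw [← det_mul, hom_mul_inv, det_one]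
      have h6 : (b y).det * (b y⁻¹).det = 1 := by rw [← det_mul, hom_mul_inv, det_one]
      calc (b x).det * (b y).det * (b x⁻¹).det * (b y⁻¹).det =
          ((b x).det * (b x⁻¹).det) * ((b y).det * (b y⁻¹).det) := by ring
        _ = 1 := by rw [h5, h6, one_mul]
    obtain ⟨μ, h1, h2⟩ := hsh w
    rw [haw] at h1
    have hμ := hroot μ h1
    subst hμ
    obtain ⟨-, htr⟩ := trace_eq_of_root hdet one_ne_zero h2
    have hCH : (b w - 1) * (b w - 1) = 0 := by
      have h3 := Matrix.aeval_self_charpoly (b w)
      rw [Matrix.charpoly_fin_two, htr, hdet] at h3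
      simp only [div_one, map_add, map_sub, map_mul, map_pow, aeval_X, map_one] at h3
      have h5 : (b w - 1) * (b w - 1) = b w ^ 2 - (1 + 1) * b w + 1 := by noncomm_ring
      rw [h5, h3]
    have h0 := unip a b hspan hsh w haw (b w - 1) (by abel) hCH
    have h1' : b w = 1 := by rw [← sub_eq_zero]; exact h0
    have h7 : b w * (b y * b x) = b x * b y := by
      rw [hw, map_mul, map_mul, map_mul]
      calc b x * b y * b x⁻¹ * b y⁻¹ * (b y * b x)
          = b x * b y * b x⁻¹ * (b y⁻¹ * b y) * b x := by simp only [mul_assoc]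
        _ = b x * b y * (b x⁻¹ * b x) := by rw [hom_inv_mul, mul_one, mul_assoc]
        _ = b x * b y := by rw [hom_inv_mul, mul_one]
    rw [← h7, h1', one_mul]
  -- `b x` is central, hence scalar
  have hcent : ∀ M : Matrix (Fin 2) (Fin 2) F, b x * M = M * b x := by
    intro M
    have hM : M ∈ Submodule.span F (Set.range b) := by rw [hspan]; trivial
    induction hM using Submodule.span_induction with
    | mem M hM =>
      obtain ⟨y, rfl⟩ := hM
      exact hcomm y
    | zero => simp
    | add M N _ _ hM hN => rw [mul_add, add_mul, hM, hN]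
    | smul c M _ hM => rw [mul_smul_comm, smul_mul_assoc, hM]
  have h01 := hcent (Matrix.single 0 1 1)
  have h10 := hcent (Matrix.single 1 0 1)
  have e1 := congrFun (congrFun h01 0) 1
  have e2 := congrFun (congrFun h01 0) 0
  have e3 := congrFun (congrFun h10 0) 0
  have e4 := congrFun (congrFun h10 1) 1
  simp [Matrix.mul_apply, Matrix.single_apply] at e1 e2 e3 e4
  obtain ⟨μ, h1, h2⟩ := hsh x
  rw [hx] at h1
  have hμ := hroot μ h1
  subst hμ
  rw [isRoot_two, Matrix.trace_fin_two, Matrix.det_fin_two, ← e1, e3] at h2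
  have h3 : (b x 0 0 - 1) * (b x 0 0 - 1) = 0 := by linear_combination h2
  have h4 : b x 0 0 = 1 := sub_eq_zero.mp (mul_self_eq_zero.mp h3)
  ext i j
  fin_cases i <;> fin_cases j
  · simpa using h4
  · simpa using e3
  · simpa using e2.symm
  · simpa [e1] using h4

end ker

end Pool.Agent.GO
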