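import Mathlib
import Pool.Agent.helper6.GO.Ker

/-!
# Common eigenvalues and the determinant of the Sylvester operator
-/

namespace Pool.Agent.GO

open Matrix Polynomial

section defs

variable {R : Type*} [CommRing R] {ι κ : Type*} [Fintype ι] [DecidableEq ι] [Fintype κ]
  [DecidableEq κ]

/-- the matrix of `U ↦ X U - U Y` -/
def syl (X : Matrix ι ι R) (Y : Matrix κ κ R) : Matrix (ι × κ) (ι × κ) R :=
  Matrix.of fun p q => X p.1 q.1 * (if p.2 = q.2 then 1 else 0) -
    (if p.1 = q.1 then 1 else 0) * Y q.2 p.2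

theorem syl_mulVec (X : Matrix ι ι R) (Y : Matrix κ κ R) (u : ι × κ → R) (p : ι × κ) :
    (syl X Y *ᵥ u) p = ∑ k, X p.1 k * u (k, p.2) - ∑ l, u (p.1, l) * Y l p.2 := by
  simp only [Matrix.mulVec, dotProduct, syl, Matrix.of_apply, sub_mul, Finset.sum_sub_distrib]
  rw [Fintype.sum_prod_type, Fintype.sum_prod_type]
  congr 1
  · apply Finset.sum_congr rfl
    intro k _
    simp
  · simp only [ite_mul, one_mul, zero_mul]
    rw [Finset.sum_comm]
    apply Finset.sum_congr rfl
    intro l _
    simp [mul_comm]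

theorem map_det_syl {S : Type*} [CommRing S] (f : R →+* S) (X : Matrix ι ι R)
    (Y : Matrix κ κ R) : f (syl X Y).det = (syl (X.map f) (Y.map f)).det := by
  rw [RingHom.map_det]
  congr 1
  ext p q
  simp only [syl, RingHom.mapMatrix_apply, Matrix.map_apply, Matrix.of_apply, map_sub, map_mul,
    apply_ite f, map_one, map_zero]

end defs

section field

variable {F : Type*} [Field F] {ι κ : Type*} [Fintype ι] [DecidableEq ι] [Fintype κ]
  [DecidableEq κ]

theorem isRoot_iff_exists (X : Matrix ι ι F) (μ : F) :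
    X.charpoly.IsRoot μ ↔ ∃ v : ι → F, v ≠ 0 ∧ X *ᵥ v = μ • v := by
  rw [Polynomial.IsRoot, Matrix.eval_charpoly]
  rw [← Matrix.exists_mulVec_eq_zero_iff]
  constructor
  · rintro ⟨v, hv, h⟩
    refine ⟨v, hv, ?_⟩
    rw [Matrix.sub_mulVec, sub_eq_zero] at h
    rw [← h]
    ext i
    simp [Matrix.scalar_apply, Matrix.mulVec_diagonal]
  · rintro ⟨v, hv, h⟩
    refine ⟨v, hv, ?_⟩
    rw [Matrix.sub_mulVec, h, sub_eq_zero]
    ext i
    simp [Matrix.scalar_apply, Matrix.mulVec_diagonal]

theorem det_syl_of_common {X : Matrix ι ι F} {Y : Matrix κ κ F} (h : CommonEigenvalue X Y) :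
    (syl X Y).det = 0 := by
  obtain ⟨μ, h1, h2⟩ := h
  rw [← Matrix.charpoly_transpose] at h2
  obtain ⟨v, hv, hv'⟩ := (isRoot_iff_exists _ _).mp h1
  obtain ⟨w, hw, hw'⟩ := (isRoot_iff_exists _ _).mp h2
  rw [← Matrix.exists_mulVec_eq_zero_iff]
  refine ⟨fun p => v p.1 * w p.2, ?_, ?_⟩
  · intro h0
    obtain ⟨i, hi⟩ := Function.ne_iff.mp hv
    obtain ⟨j, hj⟩ := Function.ne_iff.mp hw
    have := congrFun h0 (i, j)
    exact mul_ne_zero hi hj this
  · ext p
    rw [syl_mulVec]
    have h3 : ∑ k, X p.1 k * (v k * w p.2) = μ * v p.1 * w p.2 := by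
      have := congrFun hv' p.1
      simp only [Matrix.mulVec, dotProduct, Pi.smul_apply, smul_eq_mul] at this
      rw [← this, Finset.sum_mul]
      exact Finset.sum_congr rfl fun _ _ => by ring
    have h4 : ∑ l, v p.1 * w l * Y l p.2 = v p.1 * (μ * w p.2) := by
      have := congrFun hw' p.2
      simp only [Matrix.mulVec, dotProduct, Pi.smul_apply, smul_eq_mul,
        Matrix.transpose_apply] at this
      rw [← this, Finset.mul_sum]
      exact Finset.sum_congr rfl fun _ _ => by ring
    simp only at h3 h4 ⊢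
    rw [h3, h4]
    simp only [Pi.zero_apply]
    ring

theorem common_of_not_isUnit [IsAlgClosed F] {p : F[X]} (hp : p ≠ 0) {Y : Matrix κ κ F}
    (h : (aeval Y p).det = 0) : ∃ μ, p.IsRoot μ ∧ Y.charpoly.IsRoot μ := by
  have hs := IsAlgClosed.splits p
  have h1 := hs.eq_prod_roots
  rw [h1] at h
  let f : F[X] →* F := (Matrix.detMonoidHom (n := κ) (R := F)).comp
    ((aeval Y : F[X] →ₐ[F] Matrix κ κ F) : F[X] →* Matrix κ κ F)
  have h2 : f (C p.leadingCoeff * (p.roots.map fun a => X - C a).prod) = 0 := h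
  rw [map_mul, map_multiset_prod, mul_eq_zero] at h2
  rcases h2 with h2 | h2
  · exfalso
    have h3 : f (C p.leadingCoeff) = (p.leadingCoeff) ^ (Fintype.card κ) := by
      show (aeval Y (C p.leadingCoeff)).det = _
      rw [aeval_C, Matrix.algebraMap_eq_diagonal, Matrix.det_diagonal]
      simp
    rw [h3] at h2
    exact pow_ne_zero _ (leadingCoeff_ne_zero.mpr hp) h2
  · rw [Multiset.prod_eq_zero_iff] at h2
    rw [Multiset.map_map, Multiset.mem_map] at h2
    obtain ⟨μ, hμ, h4⟩ := h2
    refine ⟨μ, (Polynomial.mem_roots hp).mp hμ, ?_⟩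
    rw [Polynomial.IsRoot, Matrix.eval_charpoly]
    have h5 : (aeval Y (X - C μ)).det = 0 := h4
    rw [map_sub, aeval_X, aeval_C] at h5
    have h6 : Matrix.scalar κ μ - Y = -(Y - algebraMap F (Matrix κ κ F) μ) := by
      rw [neg_sub]
      rfl
    rw [h6, Matrix.det_neg, h5, mul_zero]

theorem common_of_det_syl [IsAlgClosed F] {X : Matrix ι ι F} {Y : Matrix κ κ F}
    (h : (syl X Y).det = 0) : CommonEigenvalue X Y := by
  rw [← Matrix.exists_mulVec_eq_zero_iff] at h
  obtain ⟨u, hu, h⟩ := h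
  let U : Matrix ι κ F := Matrix.of fun i j => u (i, j)
  have hU : X * U = U * Y := by
    ext i j
    have := congrFun h (i, j)
    rw [syl_mulVec, Pi.zero_apply, sub_eq_zero] at this
    rw [Matrix.mul_apply, Matrix.mul_apply]
    exact this
  have hp : ∀ p : F[X], aeval X p * U = U * aeval Y p := by
    intro p
    induction p using Polynomial.induction_on' with
    | add p q hp hq => rw [map_add, map_add, Matrix.add_mul, Matrix.mul_add, hp, hq]
    | monomial k c =>
      have h1 : ∀ k : ℕ, X ^ k * U = U * Y ^ k := by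
        intro k
        induction k with
        | zero => simp
        | succ k ih => rw [pow_succ, Matrix.mul_assoc, hU, ← Matrix.mul_assoc, ih,
            Matrix.mul_assoc, ← pow_succ]
      rw [aeval_monomial, aeval_monomial, ← Algebra.smul_def, ← Algebra.smul_def,
        Matrix.smul_mul, Matrix.mul_smul, h1]
  have h1 := hp X.charpoly
  rw [Matrix.aeval_self_charpoly, Matrix.zero_mul] at h1
  apply common_of_not_isUnit (Matrix.charpoly_monic X).ne_zero
  by_contra hne
  have hunit : IsUnit (aeval Y X.charpoly).det := isUnit_iff_ne_zero.mpr hne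
  have h2 : U = 0 := by
    have h3 : U * (aeval Y X.charpoly) * (aeval Y X.charpoly)⁻¹ = U :=
      Matrix.mul_nonsing_inv_cancel_right _ _ hunit
    rw [← h3, ← h1, Matrix.zero_mul]
  apply hu
  ext p
  exact congrFun (congrFun h2 p.1) p.2

theorem common_iff [IsAlgClosed F] (X : Matrix ι ι F) (Y : Matrix κ κ F) :
    CommonEigenvalue X Y ↔ (syl X Y).det = 0 :=
  ⟨det_syl_of_common, common_of_det_syl⟩

end field

end Pool.Agent.GO
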