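import Mathlib
import Pool.Agent.helper6.GO.Fun
import Pool.Agent.helper6.GO.Share

/-!
# Characters of the algebra of representative functions
-/

namespace Pool.Agent.GO

open Matrix Polynomial

section homs

variable {F : Type*} [Field F] {Γ : Type*} [Group Γ]
variable {m : Type*} [Fintype m] [DecidableEq m] (W : Γ →* Matrix m m F)

/-- evaluation at `g` -/
def evG (g : Γ) : alg W →ₐ[F] F := (Pi.evalAlgHom F (fun _ : Γ => F) g).comp (alg W).val

@[simp] theorem evG_apply (g : Γ) (f : alg W) : evG W g f = f.1 g := rfl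

/-- the generic matrix -/
def gen : Matrix m m (alg W) := Matrix.of fun i j => ⟨fun g => W g i j, coef_mem W i j⟩

/-- the inverse of the generic matrix -/
def genInv : Matrix m m (alg W) := Matrix.of fun i j => ⟨fun g => W g⁻¹ i j, coefInv_mem W i j⟩

theorem sum_alg_apply {κ : Type*} (s : Finset κ) (f : κ → alg W) (g : Γ) :
    (∑ k ∈ s, f k : alg W).1 g = ∑ k ∈ s, (f k).1 g :=
  map_sum (evG W g) f s

theorem gen_mul_genInv : gen W * genInv W = 1 := by
  ext i j g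
  rw [Matrix.mul_apply, sum_alg_apply]
  have h1 : W g * W g⁻¹ = 1 := hom_mul_inv' W g
  have h2 := congrFun (congrFun h1 i) j
  rw [Matrix.mul_apply] at h2
  have h3 : ((1 : Matrix m m (alg W)) i j).1 g = (1 : Matrix m m F) i j := by
    by_cases hij : i = j
    · subst hij; simp
    · simp [Matrix.one_apply_ne hij]
  rw [h3, ← h2]
  rfl
where
  hom_mul_inv' (W : Γ →* Matrix m m F) (x : Γ) : W x * W x⁻¹ = 1 := by
    rw [← map_mul, mul_inv_cancel, map_one]

/-- the matrix of a character -/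
def matOf (φ : alg W →ₐ[F] F) : Matrix m m F := (gen W).map φ

theorem matOf_ev (g : Γ) : matOf W (evG W g) = W g := by
  ext i j; rfl

/-- left translation on `alg W` -/
def ltA (h : Γ) : alg W →ₐ[F] alg W :=
  ((lt h).comp (alg W).val).codRestrict (alg W) (fun f => alg_lt W h f.2)

@[simp] theorem ltA_apply (h : Γ) (f : alg W) (g : Γ) : (ltA W h f).1 g = f.1 (h * g) := rfl

/-- inversion on `alg W` -/
def ivA : alg W →ₐ[F] alg W :=
  (iv.comp (alg W).val).codRestrict (alg W) (fun f => alg_iv W f.2)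

@[simp] theorem ivA_apply (f : alg W) (g : Γ) : (ivA W f).1 g = f.1 g⁻¹ := rfl

theorem twist_gen (ψ : alg W →ₐ[F] F) (i j : m) :
    (fun h => ψ (ltA W h (gen W i j))) = fun h => ∑ k, matOf W ψ k j * W h i k := by
  ext h
  have h1 : ltA W h (gen W i j) = ∑ k, (W h i k) • gen W k j := by
    apply Subtype.ext
    ext g
    rw [sum_alg_apply, ltA_apply]
    show W (h * g) i j = ∑ k, W h i k * W g k j
    rw [map_mul, Matrix.mul_apply]
  rw [h1, map_sum]
  apply Finset.sum_congr rfl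
  intro k _
  rw [map_smul, smul_eq_mul, mul_comm]
  rfl

theorem twist_genInv (ψ : alg W →ₐ[F] F) (i j : m) :
    (fun h => ψ (ltA W h (genInv W i j))) =
      fun h => ∑ k, ψ (genInv W i k) * W h⁻¹ k j := by
  ext h
  have h1 : ltA W h (genInv W i j) = ∑ k, (W h⁻¹ k j) • genInv W i k := by
    apply Subtype.ext
    ext g
    rw [sum_alg_apply, ltA_apply]
    show W (h * g)⁻¹ i j = ∑ k, W h⁻¹ k j * W g⁻¹ i k
    rw [_root_.mul_inv_rev, map_mul, Matrix.mul_apply]
    exact Finset.sum_congr rfl fun _ _ => mul_comm _ _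
  rw [h1, map_sum]
  apply Finset.sum_congr rfl
  intro k _
  rw [map_smul, smul_eq_mul, mul_comm]

theorem twist_mem (ψ : alg W →ₐ[F] F) (f : Γ → F) (hf : f ∈ alg W) :
    (fun h => ψ (ltA W h ⟨f, hf⟩)) ∈ alg W := by
  refine Algebra.adjoin_induction (p := fun f hf => (fun h => ψ (ltA W h ⟨f, hf⟩)) ∈ alg W)
    ?_ ?_ ?_ ?_ hf
  · rintro _ (⟨p, rfl⟩ | ⟨p, rfl⟩)
    · have := twist_gen W ψ p.1 p.2
      refine (congrArg (· ∈ alg W) this).mpr ?_
      exact sum_mem_fun _ _ (fun k g => W g p.1 k) fun k _ => coef_mem W _ _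
    · have := twist_genInv W ψ p.1 p.2
      refine (congrArg (· ∈ alg W) this).mpr ?_
      exact sum_mem_fun _ _ (fun k g => W g⁻¹ k p.2) fun k _ => coefInv_mem W _ _
  · intro r
    have : (fun h => ψ (ltA W h ⟨algebraMap F (Γ → F) r, Subalgebra.algebraMap_mem _ r⟩)) =
        algebraMap F (Γ → F) r := by
      ext h
      have h1 : ltA W h ⟨algebraMap F (Γ → F) r, Subalgebra.algebraMap_mem _ r⟩ =
        algebraMap F (alg W) r := rfl
      rw [h1, AlgHom.commutes]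
      rfl
    rw [this]
    exact Subalgebra.algebraMap_mem _ r
  · intro x y hx hy h1 h2
    have : (fun h => ψ (ltA W h ⟨x + y, Subalgebra.add_mem _ hx hy⟩)) =
        (fun h => ψ (ltA W h ⟨x, hx⟩)) + (fun h => ψ (ltA W h ⟨y, hy⟩)) := by
      ext h
      rw [Pi.add_apply, ← map_add, ← map_add]
      rfl
    rw [this]
    exact Subalgebra.add_mem _ h1 h2
  · intro x y hx hy h1 h2
    have : (fun h => ψ (ltA W h ⟨x * y, Subalgebra.mul_mem _ hx hy⟩)) =
        (fun h => ψ (ltA W h ⟨x, hx⟩)) * (fun h => ψ (ltA W h ⟨y, hy⟩)) := by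
      ext h
      rw [Pi.mul_apply, ← map_mul, ← map_mul]
      rfl
    rw [this]
    exact Subalgebra.mul_mem _ h1 h2

/-- right translation by a character -/
def twist (ψ : alg W →ₐ[F] F) : alg W →ₐ[F] alg W :=
  (AlgHom.pi (fun h => ψ.comp (ltA W h))).codRestrict (alg W)
    (fun f => twist_mem W ψ f.1 f.2)

/-- convolution of characters -/
def conv (φ ψ : alg W →ₐ[F] F) : alg W →ₐ[F] F := φ.comp (twist W ψ)

theorem matOf_conv (φ ψ : alg W →ₐ[F] F) : matOf W (conv W φ ψ) = matOf W φ * matOf W ψ := by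
  ext i j
  have h1 : twist W ψ (gen W i j) = ∑ k, (matOf W ψ k j) • gen W i k := by
    apply Subtype.ext
    ext h
    rw [sum_alg_apply]
    exact congrFun (twist_gen W ψ i j) h
  show φ (twist W ψ (gen W i j)) = _
  rw [h1, map_sum, Matrix.mul_apply]
  apply Finset.sum_congr rfl
  intro k _
  rw [map_smul, smul_eq_mul, mul_comm]
  rfl

theorem matOf_inv (φ : alg W →ₐ[F] F) : matOf W φ * matOf W (φ.comp (ivA W)) = 1 := by
  have h1 : (gen W).map (ivA W) = genInv W := by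
    ext i j
    rfl
  have h2 : matOf W (φ.comp (ivA W)) = (genInv W).map φ := by
    rw [← h1]
    ext i j
    rfl
  have h3 := congrArg (φ : alg W →+* F).mapMatrix (gen_mul_genInv W)
  rw [map_mul, map_one] at h3
  rw [h2]
  exact h3

/-- the group of matrices of characters -/
def chGroup : Subgroup (Matrix m m F)ˣ where
  carrier := {M | ∃ φ : alg W →ₐ[F] F, matOf W φ = M.1}
  mul_mem' := by
    rintro M N ⟨φ, hφ⟩ ⟨ψ, hψ⟩
    exact ⟨conv W φ ψ, by rw [matOf_conv, hφ, hψ]; rfl⟩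
  one_mem' := ⟨evG W 1, by rw [matOf_ev, map_one]; rfl⟩
  inv_mem' := by
    rintro M ⟨φ, hφ⟩
    refine ⟨φ.comp (ivA W), ?_⟩
    have h1 := matOf_inv W φ
    rw [hφ] at h1
    calc matOf W (φ.comp (ivA W)) = (M⁻¹.1 * M.1) * matOf W (φ.comp (ivA W)) := by
          rw [Units.inv_mul, one_mul]
      _ = M⁻¹.1 * (M.1 * matOf W (φ.comp (ivA W))) := by rw [mul_assoc]
      _ = M⁻¹.1 := by rw [h1, mul_one]

/-- the unit of a character -/
def chUnit (φ : alg W →ₐ[F] F) : chGroup W :=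
  ⟨⟨matOf W φ, matOf W (φ.comp (ivA W)), matOf_inv W φ, by
    have h := matOf_inv W φ
    exact mul_eq_one_comm.mp h⟩, ⟨φ, rfl⟩⟩

theorem ext_gen {φ ψ : alg W →ₐ[F] F} (h : matOf W φ = matOf W ψ) : φ = ψ := by
  have h2 : matOf W (φ.comp (ivA W)) = matOf W (ψ.comp (ivA W)) := by
    have a1 := matOf_inv W φ
    have a2 := matOf_inv W ψ
    have a3 := mul_eq_one_comm.mp a1
    calc matOf W (φ.comp (ivA W)) =
        matOf W (φ.comp (ivA W)) * (matOf W ψ * matOf W (ψ.comp (ivA W))) := by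
          rw [a2, mul_one]
      _ = (matOf W (φ.comp (ivA W)) * matOf W φ) * matOf W (ψ.comp (ivA W)) := by
          rw [h, mul_assoc]
      _ = matOf W (ψ.comp (ivA W)) := by rw [a3, one_mul]
  apply AlgHom.ext
  rintro ⟨f, hf⟩
  refine Algebra.adjoin_induction (p := fun f hf => φ ⟨f, hf⟩ = ψ ⟨f, hf⟩) ?_ ?_ ?_ ?_ hf
  · rintro _ (⟨p, rfl⟩ | ⟨p, rfl⟩)
    · exact congrFun (congrFun h p.1) p.2
    · exact congrFun (congrFun h2 p.1) p.2
  · intro r
    have h1 : (⟨algebraMap F (Γ → F) r, Subalgebra.algebraMap_mem _ r⟩ : alg W) =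
      algebraMap F (alg W) r := rfl
    exact (AlgHom.commutes φ r).trans (AlgHom.commutes ψ r).symm
  · intro x y hx hy h1 h2
    have e : (⟨x + y, Subalgebra.add_mem _ hx hy⟩ : alg W) = ⟨x, hx⟩ + ⟨y, hy⟩ := rfl
    exact (map_add φ ⟨x, hx⟩ ⟨y, hy⟩).trans ((congrArg₂ (· + ·) h1 h2).trans
      (map_add ψ ⟨x, hx⟩ ⟨y, hy⟩).symm)
  · intro x y hx hy h1 h2
    exact (map_mul φ ⟨x, hx⟩ ⟨y, hy⟩).trans ((congrArg₂ (· * ·) h1 h2).trans
      (map_mul ψ ⟨x, hx⟩ ⟨y, hy⟩).symm)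

end homs

section two

variable {F : Type*} [Field F] {Γ : Type*} [Group Γ]
variable {ι : Type*} [Fintype ι] [DecidableEq ι] (V : Γ →* Matrix ι ι F)
  (ρ : Γ →* Matrix (Fin 2) (Fin 2) F)

/-- direct sum of two matrix representations -/
def dsum : Γ →* Matrix (ι ⊕ Fin 2) (ι ⊕ Fin 2) F where
  toFun g := Matrix.fromBlocks (V g) 0 0 (ρ g)
  map_one' := by rw [map_one, map_one, Matrix.fromBlocks_one]
  map_mul' g h := by rw [map_mul, map_mul, Matrix.fromBlocks_multiply]; simp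

theorem matOf_blocks (φ : alg (dsum V ρ) →ₐ[F] F) :
    matOf (dsum V ρ) φ = Matrix.fromBlocks (matOf (dsum V ρ) φ).toBlocks₁₁ 0 0
      (matOf (dsum V ρ) φ).toBlocks₂₂ := by
  ext i j
  rcases i with i | i <;> rcases j with j | j
  · rfl
  · show φ (gen (dsum V ρ) (Sum.inl i) (Sum.inr j)) = 0
    have : gen (dsum V ρ) (Sum.inl i) (Sum.inr j) = 0 := by
      apply Subtype.ext
      ext g
      rfl
    rw [this, map_zero]
  · show φ (gen (dsum V ρ) (Sum.inr i) (Sum.inl j)) = 0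
    have : gen (dsum V ρ) (Sum.inr i) (Sum.inl j) = 0 := by
      apply Subtype.ext
      ext g
      rfl
    rw [this, map_zero]
  · rfl

theorem chGroup_blocks (M : chGroup (dsum V ρ)) :
    M.1.1 = Matrix.fromBlocks M.1.1.toBlocks₁₁ 0 0 M.1.1.toBlocks₂₂ := by
  obtain ⟨M, φ, hφ⟩ := M
  show M.1 = Matrix.fromBlocks M.1.toBlocks₁₁ 0 0 M.1.toBlocks₂₂
  rw [← hφ]
  exact matOf_blocks V ρ φ

/-- first block -/
def blkA : chGroup (dsum V ρ) →* Matrix ι ι F where
  toFun M := M.1.1.toBlocks₁₁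
  map_one' := by
    ext i j
    show (1 : Matrix (ι ⊕ Fin 2) (ι ⊕ Fin 2) F) (Sum.inl i) (Sum.inl j) = _
    simp [Matrix.one_apply]
  map_mul' M N := by
    show (M.1.1 * N.1.1).toBlocks₁₁ = _
    rw [chGroup_blocks V ρ M, chGroup_blocks V ρ N, Matrix.fromBlocks_multiply]
    simp

/-- second block -/
def blkB : chGroup (dsum V ρ) →* Matrix (Fin 2) (Fin 2) F where
  toFun M := M.1.1.toBlocks₂₂
  map_one' := by
    ext i j
    show (1 : Matrix (ι ⊕ Fin 2) (ι ⊕ Fin 2) F) (Sum.inr i) (Sum.inr j) = _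
    simp [Matrix.one_apply]
  map_mul' M N := by
    show (M.1.1 * N.1.1).toBlocks₂₂ = _
    rw [chGroup_blocks V ρ M, chGroup_blocks V ρ N, Matrix.fromBlocks_multiply]
    simp

theorem det_syl_ch (hsh : ∀ g, (syl (V g) (ρ g)).det = 0) (M : chGroup (dsum V ρ)) :
    (syl (blkA V ρ M) (blkB V ρ M)).det = 0 := by
  obtain ⟨M, φ, hφ⟩ := M
  let XV : Matrix ι ι (alg (dsum V ρ)) := (gen (dsum V ρ)).toBlocks₁₁
  let XR : Matrix (Fin 2) (Fin 2) (alg (dsum V ρ)) := (gen (dsum V ρ)).toBlocks₂₂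
  have h0 : (syl XV XR).det = 0 := by
    apply Subtype.ext
    ext g
    show evG (dsum V ρ) g (syl XV XR).det = 0
    have h1 := map_det_syl (evG (dsum V ρ) g : alg (dsum V ρ) →+* F) XV XR
    have h2 : XV.map (evG (dsum V ρ) g : alg (dsum V ρ) →+* F) = V g := by ext i j; rfl
    have h3 : XR.map (evG (dsum V ρ) g : alg (dsum V ρ) →+* F) = ρ g := by ext i j; rfl
    rw [h2, h3, hsh g] at h1
    exact h1
  have h1 := map_det_syl (φ : alg (dsum V ρ) →+* F) XV XR
  rw [h0, map_zero] at h1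
  have h2 : XV.map (φ : alg (dsum V ρ) →+* F) = M.1.toBlocks₁₁ := by rw [← hφ]; rfl
  have h3 : XR.map (φ : alg (dsum V ρ) →+* F) = M.1.toBlocks₂₂ := by rw [← hφ]; rfl
  rw [h2, h3] at h1
  exact h1.symm

/-- a character of the big algebra extending evaluation at `g` on the coefficients of `V` is
evaluation at `g` -/
theorem unique_ext [IsAlgClosed F] [CharZero F]
    (hspan : Submodule.span F (Set.range ρ) = ⊤)
    (hsh : ∀ g, (syl (V g) (ρ g)).det = 0) (g : Γ) (φ : alg (dsum V ρ) →ₐ[F] F)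
    (hφ : (matOf (dsum V ρ) φ).toBlocks₁₁ = V g) : φ = evG (dsum V ρ) g := by
  have hsh' : ∀ x, CommonEigenvalue (blkA V ρ x) (blkB V ρ x) := fun x =>
    common_of_det_syl (det_syl_ch V ρ hsh x)
  have hspan' : Submodule.span F (Set.range (blkB V ρ)) = ⊤ := by
    rw [eq_top_iff, ← hspan]
    apply Submodule.span_mono
    rintro _ ⟨h, rfl⟩
    refine ⟨chUnit (dsum V ρ) (evG (dsum V ρ) h), ?_⟩
    ext i j
    rfl
  set x := chUnit (dsum V ρ) (evG (dsum V ρ) g⁻¹) * chUnit (dsum V ρ) φ with hx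
  have ha1 : blkA V ρ (chUnit (dsum V ρ) (evG (dsum V ρ) g⁻¹)) = V g⁻¹ := by ext i j; rfl
  have hb1 : blkB V ρ (chUnit (dsum V ρ) (evG (dsum V ρ) g⁻¹)) = ρ g⁻¹ := by ext i j; rfl
  have ha2 : blkA V ρ (chUnit (dsum V ρ) φ) = V g := hφ
  have hax : blkA V ρ x = 1 := by
    rw [hx, map_mul, ha1, ha2, ← map_mul, inv_mul_cancel, map_one]
  have hbx := ker_le (blkA V ρ) (blkB V ρ) hspan' hsh' x hax
  rw [hx, map_mul, hb1] at hbx
  have hb2 : blkB V ρ (chUnit (dsum V ρ) φ) = ρ g := by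
    calc blkB V ρ (chUnit (dsum V ρ) φ) = (ρ g * ρ g⁻¹) * blkB V ρ (chUnit (dsum V ρ) φ) := by
          rw [hom_mul_inv, one_mul]
      _ = ρ g * (ρ g⁻¹ * blkB V ρ (chUnit (dsum V ρ) φ)) := by rw [mul_assoc]
      _ = ρ g := by rw [hbx, mul_one]
  have hb3 : (matOf (dsum V ρ) φ).toBlocks₂₂ = ρ g := hb2
  apply ext_gen
  rw [matOf_blocks V ρ φ, hφ, hb3, matOf_ev]
  rfl

end two

end Pool.Agent.GO
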