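import Mathlib
import Pool.Agent.helper6.GO.Homs

/-!
# Integrality

If `V g` and `ρ g` have a common eigenvalue for every `g` then the matrix coefficients of `ρ`
(irreducible, of dimension `2`) are integral over the algebra generated by those of `V` and its
dual.
-/

namespace Pool.Agent.GO

open Matrix Polynomial

section general

variable {F : Type*} [Field F] {Γ : Type*}

theorem root_integral (A : Type*) [CommRing A] [Algebra A (Γ → F)]
    {k : Type*} [Fintype k] [DecidableEq k] (M : Γ → Matrix k k F)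
    (hM : ∀ i j, IsIntegral A (fun g => M g i j)) (f : Γ → F)
    (hf : ∀ g, (M g).charpoly.IsRoot (f g)) : IsIntegral A f := by
  let C := integralClosure A (Γ → F)
  let M' : Matrix k k C := Matrix.of fun i j => ⟨fun g => M g i j, hM i j⟩
  have h1 : IsIntegral C f := by
    refine ⟨M'.charpoly, Matrix.charpoly_monic _, ?_⟩
    ext g
    let ev : (Γ → F) →+* F := Pi.evalRingHom (fun _ => F) g
    have h2 : (ev.comp (algebraMap C (Γ → F))).mapMatrix M' = M g := by
      ext i j; rfl
    have h3 : ev (Polynomial.eval₂ (algebraMap C (Γ → F)) f M'.charpoly) =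
        Polynomial.eval (f g) (M g).charpoly := by
      rw [Polynomial.hom_eval₂, ← h2, RingHom.mapMatrix_apply, Matrix.charpoly_map,
        Polynomial.eval_map]
      rfl
    show ev (Polynomial.eval₂ (algebraMap C (Γ → F)) f M'.charpoly) = 0
    rw [h3]
    exact hf g
  exact isIntegral_trans f h1

/-- all entries of the matrix function lie in `T` -/
def EntIn (T : Subalgebra F (Γ → F)) {k : Type*} (M : Γ → Matrix k k F) : Prop :=
  ∀ i j, (fun g => M g i j) ∈ T

theorem EntIn.mul {T : Subalgebra F (Γ → F)} {k : Type*} [Fintype k] {M N : Γ → Matrix k k F}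
    (hM : EntIn T M) (hN : EntIn T N) : EntIn T (fun g => M g * N g) := by
  intro i j
  have : (fun g => (M g * N g) i j) = ∑ k, (fun g => M g i k) * (fun g => N g k j) := by
    ext g
    rw [Finset.sum_apply, Matrix.mul_apply]
    rfl
  rw [this]
  exact Subalgebra.sum_mem _ fun k _ => Subalgebra.mul_mem _ (hM i k) (hN k j)

theorem EntIn.const {T : Subalgebra F (Γ → F)} {k : Type*} (M : Matrix k k F) :
    EntIn T (fun _ => M) := by
  intro i j
  exact Subalgebra.algebraMap_mem T (M i j)

theorem EntIn.add {T : Subalgebra F (Γ → F)} {k : Type*} {M N : Γ → Matrix k k F}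
    (hM : EntIn T M) (hN : EntIn T N) : EntIn T (fun g => M g + N g) := by
  intro i j
  exact Subalgebra.add_mem _ (hM i j) (hN i j)

theorem EntIn.smul {T : Subalgebra F (Γ → F)} {k : Type*} (c : F) {M : Γ → Matrix k k F}
    (hM : EntIn T M) : EntIn T (fun g => c • M g) := by
  intro i j
  exact Subalgebra.smul_mem _ (hM i j) c

theorem int_of_mem {T : Subalgebra F (Γ → F)} {f : Γ → F} (hf : f ∈ T) : IsIntegral T f :=
  isIntegral_algebraMap (R := T) (A := Γ → F) (x := ⟨f, hf⟩)

theorem int_smul {T : Subalgebra F (Γ → F)} (c : F) {f : Γ → F} (hf : IsIntegral T f) :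
    IsIntegral T (c • f) := by
  have h1 : IsIntegral T (fun _ : Γ => c) := int_of_mem (Subalgebra.algebraMap_mem T c)
  exact h1.mul hf

end general

section two

variable {F : Type*} [Field F] {Γ : Type*} [Group Γ]
variable {ι : Type*} [Fintype ι] [DecidableEq ι] (V : Γ →* Matrix ι ι F)
  (ρ : Γ →* Matrix (Fin 2) (Fin 2) F)

theorem int_rt (h : Γ) {f : Γ → F} (hf : IsIntegral (alg V) f) :
    IsIntegral (alg V) (rt h f) := by
  let φ : alg V →+* alg V :=
    (((rt h).comp (alg V).val).codRestrict (alg V) (fun f => alg_rt V h f.2) :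
      alg V →ₐ[F] alg V)
  exact IsIntegral.map_of_comp_eq φ ((rt h : (Γ → F) →ₐ[F] (Γ → F)) : (Γ → F) →+* (Γ → F))
    (by ext x g; rfl) hf

theorem int_iv {f : Γ → F} (hf : IsIntegral (alg V) f) :
    IsIntegral (alg V) (iv f) := by
  let φ : alg V →+* alg V := ((ivA V : alg V →ₐ[F] alg V) : alg V →+* alg V)
  exact IsIntegral.map_of_comp_eq φ ((iv : (Γ → F) →ₐ[F] (Γ → F)) : (Γ → F) →+* (Γ → F))
    (by ext x g; rfl) hf

theorem entIn_V : EntIn (alg V) (fun g => V g) := fun i j => coef_mem V i j
theorem entIn_Vinv : EntIn (alg V) (fun g => V g⁻¹) := fun i j => coefInv_mem V i j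

theorem comm_integral (hsh : ∀ g, CommonEigenvalue (V g) (ρ g)) (h k : Γ) :
    IsIntegral (alg V) (fun g => (ρ (g * h * g⁻¹ * k)).trace) := by
  set c0 := (ρ h).det * (ρ k).det with hc0
  have hc0' : c0 ≠ 0 := mul_ne_zero (hom_det_ne ρ h) (hom_det_ne ρ k)
  have e1 : EntIn (alg V) (fun g => V (g * h * g⁻¹ * k)) := by
    have := ((entIn_V V).mul (EntIn.const (V h))).mul (entIn_Vinv V) |>.mul (EntIn.const (V k))
    simpa only [← map_mul] using this
  have e2 : EntIn (alg V) (fun g => V (g * h * g⁻¹ * k)⁻¹) := by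
    intro i j
    exact alg_iv_of V (fun g => V (g * h * g⁻¹ * k)⁻¹ i j) h k i j
  apply root_integral (alg V) (fun g => V (g * h * g⁻¹ * k) + c0 • V (g * h * g⁻¹ * k)⁻¹)
    (fun i j => int_of_mem ((e1.add (e2.smul c0)) i j))
  intro g
  set c := g * h * g⁻¹ * k with hc
  obtain ⟨μ, h1, h2⟩ := hsh c
  have hdet : (ρ c).det = c0 := by
    rw [hc, map_mul, map_mul, map_mul, det_mul, det_mul, det_mul]
    have h5 : (ρ g).det * (ρ g⁻¹).det = 1 := by rw [← det_mul, hom_mul_inv, det_one]
    calc (ρ g).det * (ρ h).det * (ρ g⁻¹).det * (ρ k).det =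
        ((ρ g).det * (ρ g⁻¹).det) * ((ρ h).det * (ρ k).det) := by ring
      _ = c0 := by rw [h5, one_mul]
  obtain ⟨hμ, htr⟩ := trace_eq_of_root hdet hc0' h2
  obtain ⟨v, hv, hv'⟩ := (isRoot_iff_exists _ _).mp h1
  rw [isRoot_iff_exists]
  refine ⟨v, hv, ?_⟩
  have h3 : V c⁻¹ *ᵥ v = μ⁻¹ • v := by
    have h4 : V c⁻¹ *ᵥ (V c *ᵥ v) = v := by
      rw [Matrix.mulVec_mulVec, ← map_mul, inv_mul_cancel, map_one, Matrix.one_mulVec]
    rw [hv', Matrix.mulVec_smul] at h4
    rw [← h4, smul_smul, inv_mul_cancel₀ hμ, one_smul, h4]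
  rw [Matrix.add_mulVec, Matrix.smul_mulVec, hv', h3, htr, smul_smul, ← add_smul,
    div_eq_mul_inv]
where
  alg_iv_of (V : Γ →* Matrix ι ι F) (f : Γ → F) (h k : Γ) (i j : ι) :
      (fun g => V (g * h * g⁻¹ * k)⁻¹ i j) ∈ alg V := by
    have e : (fun g => V (g * h * g⁻¹ * k)⁻¹) =
        fun g => V k⁻¹ * V g * V h⁻¹ * V g⁻¹ := by
      ext1 g
      rw [← map_mul, ← map_mul, ← map_mul]
      congr 1
      group
    have := ((EntIn.const (T := alg V) (V k⁻¹)).mul (entIn_V V)).mul
      (EntIn.const (V h⁻¹)) |>.mul (entIn_Vinv V)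
    rw [← e] at this
    exact this i j

theorem comm_integral_span (hspan : Submodule.span F (Set.range ρ) = ⊤)
    (hsh : ∀ g, CommonEigenvalue (V g) (ρ g)) (M N : Matrix (Fin 2) (Fin 2) F) :
    IsIntegral (alg V) (fun g => (ρ g * M * ρ g⁻¹ * N).trace) := by
  have h1 : ∀ k, IsIntegral (alg V) (fun g => (ρ g * M * ρ g⁻¹ * ρ k).trace) := by
    intro k
    have hM : M ∈ Submodule.span F (Set.range ρ) := by rw [hspan]; trivial
    induction hM using Submodule.span_induction with
    | mem M hM =>
      obtain ⟨h, rfl⟩ := hM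
      have := comm_integral V ρ hsh h k
      simpa only [map_mul] using this
    | zero =>
      have : (fun g => (ρ g * 0 * ρ g⁻¹ * ρ k).trace) = (0 : Γ → F) := by ext g; simp
      rw [this]
      exact isIntegral_zero
    | add M N _ _ hM hN =>
      have : (fun g => (ρ g * (M + N) * ρ g⁻¹ * ρ k).trace) =
          (fun g => (ρ g * M * ρ g⁻¹ * ρ k).trace) + (fun g => (ρ g * N * ρ g⁻¹ * ρ k).trace) := by
        ext g
        simp only [Pi.add_apply, mul_add, add_mul, Matrix.trace_add]
      rw [this]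
      exact hM.add hN
    | smul c M _ hM =>
      have : (fun g => (ρ g * (c • M) * ρ g⁻¹ * ρ k).trace) =
          c • (fun g => (ρ g * M * ρ g⁻¹ * ρ k).trace) := by
        ext g
        simp only [Pi.smul_apply, mul_smul_comm, smul_mul_assoc, Matrix.trace_smul]
      rw [this]
      exact int_smul c hM
  have hN : N ∈ Submodule.span F (Set.range ρ) := by rw [hspan]; trivial
  induction hN using Submodule.span_induction with
  | mem N hN =>
    obtain ⟨k, rfl⟩ := hN
    exact h1 k
  | zero =>
    have : (fun g => (ρ g * M * ρ g⁻¹ * 0).trace) = (0 : Γ → F) := by ext g; simp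
    rw [this]
    exact isIntegral_zero
  | add N N' _ _ hM hN =>
    have : (fun g => (ρ g * M * ρ g⁻¹ * (N + N')).trace) =
        (fun g => (ρ g * M * ρ g⁻¹ * N).trace) + (fun g => (ρ g * M * ρ g⁻¹ * N').trace) := by
      ext g
      simp only [Pi.add_apply, mul_add, Matrix.trace_add]
    rw [this]
    exact hM.add hN
  | smul c N _ hN =>
    have : (fun g => (ρ g * M * ρ g⁻¹ * (c • N)).trace) =
        c • (fun g => (ρ g * M * ρ g⁻¹ * N).trace) := by
      ext g
      simp only [Pi.smul_apply, mul_smul_comm, Matrix.trace_smul]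
    rw [this]
    exact int_smul c hN

theorem trace_mul_integral (hspan : Submodule.span F (Set.range ρ) = ⊤)
    (hsh : ∀ g, CommonEigenvalue (V g) (ρ g)) :
    IsIntegral (alg V) (fun g => (ρ g).trace * (ρ g⁻¹).trace) := by
  have h1 : (fun g => (ρ g).trace * (ρ g⁻¹).trace) =
      ∑ i : Fin 2, ∑ k : Fin 2,
        (fun g => (ρ g * Matrix.single i k 1 * ρ g⁻¹ * Matrix.single k i 1).trace) := by
    ext g
    simp only [Finset.sum_apply, Fin.sum_univ_two, Matrix.trace_fin_two]
    simp [Matrix.mul_apply, Fin.sum_univ_two, Matrix.single_apply]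
    ring
  rw [h1]
  exact IsIntegral.sum _ fun i _ => IsIntegral.sum _ fun k _ =>
    comm_integral_span V ρ hspan hsh _ _

theorem trace_inv_two (g : Γ) : (ρ g⁻¹).trace = (ρ g).trace / (ρ g).det := by
  have h1 : ρ g⁻¹ = (ρ g)⁻¹ := by
    rw [Matrix.inv_eq_right_inv (hom_mul_inv ρ g)]
  rw [h1, Matrix.inv_def, Matrix.trace_smul, Matrix.adjugate_fin_two]
  simp only [Matrix.trace_fin_two, Matrix.of_apply, Matrix.cons_val', Matrix.cons_val_zero,
    Matrix.cons_val_one, Matrix.cons_val_fin_one, Ring.inverse_eq_inv', smul_eq_mul]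
  rw [div_eq_mul_inv]
  ring

theorem trace_integral (hspan : Submodule.span F (Set.range ρ) = ⊤)
    (hsh : ∀ g, CommonEigenvalue (V g) (ρ g)) :
    IsIntegral (alg V) (fun g => (ρ g).trace) := by
  set s : Γ → F := fun g => (ρ g).trace * (ρ g⁻¹).trace with hs
  have hsint : IsIntegral (alg V) s := trace_mul_integral V ρ hspan hsh
  let Q : Γ → Matrix (Fin 2) (Fin 2) F := fun g => !![1, -1; 1, s g - 1]
  have hQ : ∀ i j, IsIntegral (alg V) (fun g => Q g i j) := by
    intro i j
    have c1 : IsIntegral (alg V) (fun _ : Γ => (1 : F)) :=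
      int_of_mem (Subalgebra.algebraMap_mem _ 1)
    have c2 : IsIntegral (alg V) (fun _ : Γ => (-1 : F)) :=
      int_of_mem (Subalgebra.algebraMap_mem _ (-1))
    fin_cases i <;> fin_cases j
    · exact c1
    · exact c2
    · exact c1
    · exact hsint.sub c1
  apply root_integral (alg V) (k := ι × Fin 2)
    (fun g => Matrix.of fun p q => V g p.1 q.1 * Q g p.2 q.2)
    (fun p q => (int_of_mem (coef_mem V p.1 q.1)).mul (hQ p.2 q.2))
  intro g
  obtain ⟨μ, h1, h2⟩ := hsh g
  obtain ⟨hμ, htr⟩ := trace_eq_of_root rfl (hom_det_ne ρ g) h2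
  have hdet := hom_det_ne ρ g
  set c := (ρ g).det with hc
  obtain ⟨v, hv, hv'⟩ := (isRoot_iff_exists _ _).mp h1
  rw [isRoot_iff_exists]
  set q := c / μ ^ 2 with hq
  have hsg : s g = (μ + c / μ) * ((μ + c / μ) / c) := by
    rw [hs]
    show (ρ g).trace * (ρ g⁻¹).trace = _
    rw [trace_inv_two, ← hc, htr]
  have hquad : q ^ 2 - (s g - 2) * q + 1 = 0 := by
    rw [hsg, hq]
    field_simp
    ring
  let w : Fin 2 → F := ![1, -q]
  have hw : ∀ i, ∑ j, Q g i j * w j = (1 + q) * w i := by
    intro i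
    fin_cases i
    · simp [Q, w, Fin.sum_univ_two]
    · simp only [Q, w, Fin.sum_univ_two]
      simp
      linear_combination hquad
  refine ⟨fun p => v p.1 * w p.2, ?_, ?_⟩
  · intro h0
    obtain ⟨i, hi⟩ := Function.ne_iff.mp hv
    have := congrFun h0 (i, 0)
    simp only [w, Matrix.cons_val_zero, mul_one, Pi.zero_apply] at this
    exact hi this
  · ext p
    show ∑ r : ι × Fin 2, (V g p.1 r.1 * Q g p.2 r.2) * (v r.1 * w r.2) =
      (ρ g).trace * (v p.1 * w p.2)
    have h3 : ∑ r : ι × Fin 2, (V g p.1 r.1 * Q g p.2 r.2) * (v r.1 * w r.2) =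
        (∑ k, V g p.1 k * v k) * ∑ l, Q g p.2 l * w l := by
      rw [Fintype.sum_prod_type, Finset.sum_mul]
      apply Finset.sum_congr rfl
      intro k _
      rw [Finset.mul_sum]
      exact Finset.sum_congr rfl fun l _ => by ring
    have h4 : ∑ k, V g p.1 k * v k = μ * v p.1 := congrFun hv' p.1
    rw [h3, h4, hw, htr, hq]
    field_simp

theorem coef_integral (hspan : Submodule.span F (Set.range ρ) = ⊤)
    (hsh : ∀ g, CommonEigenvalue (V g) (ρ g)) (i j : Fin 2) :
    IsIntegral (alg V) (fun g => ρ g i j) := by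
  have h1 : ∀ M : Matrix (Fin 2) (Fin 2) F, IsIntegral (alg V) (fun g => (ρ g * M).trace) := by
    intro M
    have hM : M ∈ Submodule.span F (Set.range ρ) := by rw [hspan]; trivial
    induction hM using Submodule.span_induction with
    | mem M hM =>
      obtain ⟨h, rfl⟩ := hM
      have := int_rt V h (trace_integral V ρ hspan hsh)
      have e : rt h (fun g => (ρ g).trace) = fun g => (ρ g * ρ h).trace := by
        ext g; rw [rt_apply, map_mul]
      rwa [e] at this
    | zero =>
      have : (fun g => (ρ g * 0).trace) = (0 : Γ → F) := by ext g; simp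
      rw [this]
      exact isIntegral_zero
    | add M N _ _ hM hN =>
      have : (fun g => (ρ g * (M + N)).trace) =
          (fun g => (ρ g * M).trace) + (fun g => (ρ g * N).trace) := by
        ext g
        simp only [Pi.add_apply, mul_add, Matrix.trace_add]
      rw [this]
      exact hM.add hN
    | smul c M _ hM =>
      have : (fun g => (ρ g * (c • M)).trace) = c • (fun g => (ρ g * M).trace) := by
        ext g
        simp only [Pi.smul_apply, mul_smul_comm, Matrix.trace_smul]
      rw [this]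
      exact int_smul c hM
  have h2 : (fun g => ρ g i j) = fun g => (ρ g * Matrix.single j i 1).trace := by
    ext g
    fin_cases i <;> fin_cases j <;>
      simp [Matrix.trace_fin_two, Matrix.mul_apply, Matrix.single_apply]
  rw [h2]
  exact h1 _

theorem coefInv_integral (hspan : Submodule.span F (Set.range ρ) = ⊤)
    (hsh : ∀ g, CommonEigenvalue (V g) (ρ g)) (i j : Fin 2) :
    IsIntegral (alg V) (fun g => ρ g⁻¹ i j) :=
  int_iv V (coef_integral V ρ hspan hsh i j)

/-- all elements of the big algebra are integral over the small one -/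
theorem alg_dsum_integral (hspan : Submodule.span F (Set.range ρ) = ⊤)
    (hsh : ∀ g, CommonEigenvalue (V g) (ρ g)) (f : Γ → F) (hf : f ∈ alg (dsum V ρ)) :
    IsIntegral (alg V) f := by
  unfold alg at hf
  induction hf using Algebra.adjoin_induction with
  | mem x hx =>
    rcases hx with ⟨⟨i | i, j | j⟩, rfl⟩ | ⟨⟨i | i, j | j⟩, rfl⟩
    · exact int_of_mem (coef_mem V i j)
    · exact isIntegral_zero
    · exact isIntegral_zero
    · exact coef_integral V ρ hspan hsh i j
    · exact int_of_mem (coefInv_mem V i j)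
    · exact isIntegral_zero
    · exact isIntegral_zero
    · exact coefInv_integral V ρ hspan hsh i j
  | algebraMap r => exact int_of_mem (Subalgebra.algebraMap_mem _ r)
  | add x y _ _ hx hy => exact hx.add hy
  | mul x y _ _ hx hy => exact hx.mul hy

end two

end Pool.Agent.GO
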