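import Mathlib

/-!
# The trace argument

`A → B` algebras with homomorphisms to the algebra of functions on `Γ` with values in an
algebraically closed field of characteristic `0`, `B` finite over `A`, such that evaluation at
`g` is the only character of `B` extending evaluation at `g` on `A`, and such that the dimension
of the fibre at `g` does not depend on `g`. Then every `b ∈ B` has a denominator `s ∈ A` with
`s 1 ≠ 0`.
-/

namespace Pool.Agent.GO

section trace

variable {F : Type*} [Field F] {Γ : Type*}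
variable {A B : Type*} [CommRing A] [CommRing B] [Algebra F A] [Algebra F B] [Algebra A B]
  [IsScalarTower F A B]
variable (eA : Γ → A →ₐ[F] F) (eB : Γ → B →ₐ[F] F)

variable (B) in
/-- the ideal of the fibre over `g` -/
def fib (g : Γ) : Ideal B := Ideal.map (algebraMap A B) (RingHom.ker (eA g))

theorem mk_smul (g : Γ) (a : A) (b : B) :
    Ideal.Quotient.mk (fib B eA g) (a • b) = (eA g a) • Ideal.Quotient.mk (fib B eA g) b := by
  have h1 : (eA g a) • Ideal.Quotient.mk (fib B eA g) b =
      Ideal.Quotient.mk (fib B eA g) ((eA g a) • b) := rfl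
  rw [h1, Ideal.Quotient.mk_eq_mk_iff_sub_mem]
  have h2 : a • b - (eA g a) • b = algebraMap A B (a - algebraMap F A (eA g a)) * b := by
    rw [map_sub, sub_mul, Algebra.smul_def, Algebra.smul_def, ← IsScalarTower.algebraMap_apply]
  rw [h2]
  apply Ideal.mul_mem_right
  apply Ideal.mem_map_of_mem
  rw [RingHom.mem_ker, map_sub]
  simp

theorem finite_fib [Module.Finite A B] (g : Γ) : Module.Finite F (B ⧸ fib B eA g) := by
  classical
  obtain ⟨s, hs⟩ := Module.Finite.fg_top (R := A) (M := B)
  refine ⟨⟨s.image (Ideal.Quotient.mk (fib B eA g)), ?_⟩⟩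
  rw [eq_top_iff]
  rintro x -
  obtain ⟨b, rfl⟩ := Ideal.Quotient.mk_surjective x
  have hb : b ∈ Submodule.span A (s : Set B) := by rw [hs]; trivial
  induction hb using Submodule.span_induction with
  | mem x hx =>
    apply Submodule.subset_span
    simp only [Finset.coe_image, Set.mem_image]
    exact ⟨x, hx, rfl⟩
  | zero => rw [map_zero]; exact Submodule.zero_mem _
  | add x y _ _ hx hy => rw [map_add]; exact Submodule.add_mem _ hx hy
  | smul a x _ hx => rw [mk_smul]; exact Submodule.smul_mem _ _ hx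

omit [IsScalarTower F A B] in
theorem fib_le (hAB : ∀ g a, eB g (algebraMap A B a) = eA g a) (g : Γ) :
    fib B eA g ≤ RingHom.ker (eB g) := by
  rw [fib, Ideal.map_le_iff_le_comap]
  intro a ha
  rw [Ideal.mem_comap, RingHom.mem_ker, hAB]
  exact ha

theorem nilp [IsAlgClosed F] [Module.Finite A B] (g : Γ)
    (hu : ∀ φ : B →ₐ[F] F, (∀ a : A, φ (algebraMap A B a) = eA g a) → ∀ b : B, φ b = eB g b)
    (b : B) (hb : eB g b = 0) : IsNilpotent (Ideal.Quotient.mk (fib B eA g) b) := by
  have hfin := finite_fib (B := B) eA g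
  have : IsArtinianRing (B ⧸ fib B eA g) := IsArtinianRing.of_finite F _
  by_contra hcon
  rw [← mem_nilradical, nilradical_eq_sInf, Ideal.mem_sInf] at hcon
  push Not at hcon
  obtain ⟨P, hP, hbP⟩ := hcon
  have hP' : P.IsPrime := hP
  have hdom : IsDomain ((B ⧸ fib B eA g) ⧸ P) := Ideal.Quotient.isDomain P
  have hfin2 : Module.Finite F ((B ⧸ fib B eA g) ⧸ P) :=
    Module.Finite.of_surjective (Ideal.Quotient.mkₐ F P).toLinearMap
      (Ideal.Quotient.mkₐ_surjective F P)
  have hbij := IsAlgClosed.algebraMap_bijective_of_isIntegral (k := F)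
    (K := (B ⧸ fib B eA g) ⧸ P)
  let e : F ≃ₐ[F] ((B ⧸ fib B eA g) ⧸ P) :=
    AlgEquiv.ofBijective (Algebra.ofId F _) hbij
  let φ : B →ₐ[F] F := (e.symm : _ →ₐ[F] F).comp
    ((Ideal.Quotient.mkₐ F P).comp (Ideal.Quotient.mkₐ F (fib B eA g)))
  have hφ : ∀ a : A, φ (algebraMap A B a) = eA g a := by
    intro a
    have h1 : (algebraMap A B a) = a • (1 : B) := by rw [Algebra.smul_def, mul_one]
    have h2 : Ideal.Quotient.mk (fib B eA g) (algebraMap A B a) =
        (eA g a) • (1 : B ⧸ fib B eA g) := by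
      rw [h1, mk_smul, map_one]
    show e.symm (Ideal.Quotient.mk P (Ideal.Quotient.mk (fib B eA g) (algebraMap A B a))) = _
    rw [h2]
    have h3 : (Ideal.Quotient.mk P) ((eA g a) • (1 : B ⧸ fib B eA g)) = e (eA g a) := by
      have : (Ideal.Quotient.mk P) ((eA g a) • (1 : B ⧸ fib B eA g)) =
        (eA g a) • (1 : (B ⧸ fib B eA g) ⧸ P) := rfl
      rw [this]
      show _ = algebraMap F _ (eA g a)
      rw [Algebra.algebraMap_eq_smul_one]
    rw [h3, AlgEquiv.symm_apply_apply]
  have h4 := hu φ hφ b
  rw [hb] at h4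
  apply hbP
  have h5 : e.symm (Ideal.Quotient.mk P (Ideal.Quotient.mk (fib B eA g) b)) = 0 := h4
  rw [map_eq_zero_iff _ e.symm.injective] at h5
  exact Ideal.Quotient.eq_zero_iff_mem.mp h5

theorem exists_denominator [Group Γ] [IsAlgClosed F] [CharZero F] [Module.Finite A B]
    (hAB : ∀ g a, eB g (algebraMap A B a) = eA g a)
    (hu : ∀ g, ∀ φ : B →ₐ[F] F, (∀ a : A, φ (algebraMap A B a) = eA g a) →
      ∀ b : B, φ b = eB g b)
    (hdim : ∀ g, Module.finrank F (B ⧸ fib B eA g) = Module.finrank F (B ⧸ fib B eA 1))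
    (b : B) : ∃ s a : A, eA 1 s ≠ 0 ∧ ∀ g, eA g s * eB g b = eA g a := by
  classical
  have hfin := fun g => finite_fib (B := B) eA g
  set r := Module.finrank F (B ⧸ fib B eA 1) with hr
  let e : Module.Basis (Fin r) F (B ⧸ fib B eA 1) := Module.finBasis F _
  choose c hc using fun i => Ideal.Quotient.mk_surjective (e i)
  -- Nakayama
  have hle : (⊤ : Submodule A B) ≤ Submodule.span A (Set.range c) ⊔
      (RingHom.ker (eA 1)) • (⊤ : Submodule A B) := by
    rintro b -
    have h1 := e.sum_repr (Ideal.Quotient.mk (fib B eA 1) b)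
    set w := ∑ i, (algebraMap F A (e.repr (Ideal.Quotient.mk (fib B eA 1) b) i)) • c i with hw
    have h2 : Ideal.Quotient.mk (fib B eA 1) w = Ideal.Quotient.mk (fib B eA 1) b := by
      rw [hw, map_sum]
      refine Eq.trans ?_ h1
      apply Finset.sum_congr rfl
      intro i _
      rw [mk_smul, hc, AlgHom.commutes]
      rfl
    have h3 : b - w ∈ (RingHom.ker (eA 1)) • (⊤ : Submodule A B) := by
      rw [Ideal.smul_top_eq_map]
      show b - w ∈ fib B eA 1
      rw [← Ideal.Quotient.mk_eq_mk_iff_sub_mem, h2]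
    have h4 : w ∈ Submodule.span A (Set.range c) :=
      Submodule.sum_mem _ fun i _ => Submodule.smul_mem _ _ (Submodule.subset_span ⟨i, rfl⟩)
    have h5 : b = w + (b - w) := by ring
    rw [h5]
    exact Submodule.add_mem_sup h4 h3
  obtain ⟨s, hs1, hs2⟩ := Submodule.exists_sub_one_mem_and_smul_le_of_fg_of_le_sup
    (I := RingHom.ker (eA 1)) (N := Submodule.span A (Set.range c)) (N' := ⊤) (P := ⊤)
    Module.Finite.fg_top le_rfl hle
  have hs : eA 1 s = 1 := by
    rw [RingHom.mem_ker, map_sub, map_one, sub_eq_zero] at hs1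
    exact hs1
  have hmem : ∀ x : B, ∃ w : Fin r → A, ∑ j, w j • c j = s • x := by
    intro x
    have : s • x ∈ Submodule.span A (Set.range c) :=
      hs2 (Submodule.smul_mem_pointwise_smul _ _ _ trivial)
    exact (Submodule.mem_span_range_iff_exists_fun _).mp this
  choose w hw using fun i => hmem (b * c i)
  have hr0 : (r : F) ≠ 0 := by
    have hne : Nontrivial (B ⧸ fib B eA 1) := by
      refine Ideal.Quotient.nontrivial_iff.mpr ?_
      intro htop
      have h1 : (1 : B) ∈ fib B eA 1 := by rw [htop]; trivial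
      have := fib_le eA eB hAB 1 h1
      rw [RingHom.mem_ker, map_one] at this
      exact one_ne_zero this
    have : 0 < r := Module.finrank_pos
    exact_mod_cast this.ne'
  refine ⟨s * s, s * (((r : F)⁻¹) • ∑ i, w i i), ?_, ?_⟩
  · rw [map_mul, hs]; simp
  intro g
  rw [map_mul, map_mul, map_smul, map_sum, smul_eq_mul]
  by_cases hsg : eA g s = 0
  · rw [hsg]; simp
  -- the images of `c i` form a basis of the fibre at `g`
  set v : Fin r → (B ⧸ fib B eA g) := fun i => Ideal.Quotient.mk (fib B eA g) (c i) with hv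
  have hspan : ⊤ ≤ Submodule.span F (Set.range v) := by
    rintro x -
    obtain ⟨y, rfl⟩ := Ideal.Quotient.mk_surjective x
    obtain ⟨u, hu'⟩ := hmem y
    have h1 := congrArg (Ideal.Quotient.mk (fib B eA g)) hu'
    rw [mk_smul, map_sum] at h1
    have h2 : Ideal.Quotient.mk (fib B eA g) y =
        (eA g s)⁻¹ • ∑ j, (eA g (u j)) • v j := by
      rw [eq_inv_smul_iff₀ hsg, ← h1]
      apply Finset.sum_congr rfl
      intro j _
      rw [mk_smul]
    rw [h2]
    exact Submodule.smul_mem _ _ (Submodule.sum_mem _ fun j _ =>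
      Submodule.smul_mem _ _ (Submodule.subset_span ⟨j, rfl⟩))
  have hcard : Fintype.card (Fin r) = Module.finrank F (B ⧸ fib B eA g) := by
    rw [Fintype.card_fin, hdim g]
  let bs : Module.Basis (Fin r) F (B ⧸ fib B eA g) := basisOfTopLeSpanOfCardEqFinrank v hspan hcard
  have hbs : ∀ i, bs i = v i := fun i => by
    simp only [bs, coe_basisOfTopLeSpanOfCardEqFinrank]
  set T : (B ⧸ fib B eA g) →ₗ[F] (B ⧸ fib B eA g) :=
    LinearMap.mulLeft F (Ideal.Quotient.mk (fib B eA g) b) with hT
  -- trace of `T`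
  have htr1 : LinearMap.trace F _ T = r * eB g b := by
    have h1 : IsNilpotent (T - (eB g b) • LinearMap.id) := by
      obtain ⟨k, hk⟩ := nilp eA eB g (hu g) (b - algebraMap F B (eB g b)) (by
        rw [map_sub, AlgHom.commutes]; simp)
      refine ⟨k, ?_⟩
      have h2 : T - (eB g b) • LinearMap.id =
          LinearMap.mulLeft F (Ideal.Quotient.mk (fib B eA g) (b - algebraMap F B (eB g b))) := by
        refine LinearMap.ext fun x => ?_
        simp only [hT, LinearMap.sub_apply, LinearMap.mulLeft_apply, LinearMap.smul_apply,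
          LinearMap.id_apply, map_sub, sub_mul]
        congr 1
        rw [Algebra.smul_def]
        rfl
      rw [h2, LinearMap.pow_mulLeft, hk]
      refine LinearMap.ext fun x => ?_
      simp
    have h3 : LinearMap.trace F _ (T - (eB g b) • LinearMap.id) = 0 :=
      (LinearMap.isNilpotent_trace_of_isNilpotent h1).eq_zero
    rw [map_sub, map_smul, LinearMap.trace_id, sub_eq_zero] at h3
    rw [h3, hdim g, smul_eq_mul, mul_comm]
  have htr2 : (eA g s) * LinearMap.trace F _ T = ∑ i, eA g (w i i) := by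
    rw [← smul_eq_mul, ← map_smul, LinearMap.trace_eq_matrix_trace F bs, Matrix.trace]
    apply Finset.sum_congr rfl
    intro i _
    rw [Matrix.diag_apply, LinearMap.toMatrix_apply, LinearMap.smul_apply, hbs]
    have h1 : (eA g s) • T (v i) = ∑ j, (eA g (w i j)) • bs j := by
      have h2 := congrArg (Ideal.Quotient.mk (fib B eA g)) (hw i)
      rw [mk_smul, map_sum] at h2
      have h4 : T (v i) = Ideal.Quotient.mk (fib B eA g) (b * c i) := by
        rw [map_mul]
        rfl
      rw [h4, ← h2]
      apply Finset.sum_congr rfl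
      intro j _
      rw [mk_smul, hbs]
    rw [h1, map_sum, Finsupp.finsetSum_apply]
    simp only [map_smul, Finsupp.smul_apply, Module.Basis.repr_self, smul_eq_mul]
    rw [Finset.sum_eq_single i]
    · simp
    · intro j _ hj
      simp [hj]
    · simp
  have hfinal : eA g s * eB g b = (r : F)⁻¹ * ∑ i, eA g (w i i) := by
    rw [← htr2, htr1]
    field_simp
  rw [← hfinal]
  ring

end trace

end Pool.Agent.GO
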