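import Mathlib
import Pool.Agent.helper6.GO.Integr
import Pool.Agent.helper6.GO.Tr

/-!
# The matrix coefficients of `ρ` are representative functions of `V`
-/

namespace Pool.Agent.GO

open Matrix Polynomial

section big

variable {F : Type*} [Field F] {Γ : Type*} [Group Γ]
variable {m : Type*} [Fintype m] [DecidableEq m] (W : Γ →* Matrix m m F)

/-- left translation as an automorphism -/
def ltE (h : Γ) : alg W ≃ₐ[F] alg W :=
  AlgEquiv.ofAlgHom (ltA W h) (ltA W h⁻¹)
    (by
      apply AlgHom.ext
      intro f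
      apply Subtype.ext
      ext g
      show f.1 (h⁻¹ * (h * g)) = f.1 g
      rw [inv_mul_cancel_left])
    (by
      apply AlgHom.ext
      intro f
      apply Subtype.ext
      ext g
      show f.1 (h * (h⁻¹ * g)) = f.1 g
      rw [mul_inv_cancel_left])

theorem finiteType_alg : Algebra.FiniteType F (alg W) := by
  classical
  rw [← Subalgebra.fg_iff_finiteType]
  have hfin : (Set.range (fun p : m × m => fun g => W g p.1 p.2) ∪
    Set.range (fun p : m × m => fun g => W g⁻¹ p.1 p.2)).Finite :=
    (Set.finite_range _).union (Set.finite_range _)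
  refine ⟨hfin.toFinset, ?_⟩
  rw [Set.Finite.coe_toFinset]
  rfl

end big

section two

variable {F : Type*} [Field F] {Γ : Type*} [Group Γ]
variable {ι : Type*} [Fintype ι] [DecidableEq ι] (V : Γ →* Matrix ι ι F)
  (ρ : Γ →* Matrix (Fin 2) (Fin 2) F)

theorem alg_le_dsum : alg V ≤ alg (dsum V ρ) :=
  alg_le V (fun i j => coef_mem (dsum V ρ) (Sum.inl i) (Sum.inl j))
    (fun i j => coefInv_mem (dsum V ρ) (Sum.inl i) (Sum.inl j))

theorem exists_den [IsAlgClosed F] [CharZero F]
    (hspan : Submodule.span F (Set.range ρ) = ⊤)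
    (hsh : ∀ g, CommonEigenvalue (V g) (ρ g)) (i j : Fin 2) :
    ∃ s : Γ → F, s ∈ alg V ∧ s 1 ≠ 0 ∧ (fun g => s g * ρ g i j) ∈ alg V := by
  let A := alg V
  let B := alg (dsum V ρ)
  have hAB : A ≤ B := alg_le_dsum V ρ
  letI : Algebra A B := (Subalgebra.inclusion hAB).toRingHom.toAlgebra
  have : IsScalarTower F A B := IsScalarTower.of_algebraMap_eq fun _ => rfl
  have hft : Algebra.FiniteType F B := finiteType_alg (dsum V ρ)
  have hft' : Algebra.FiniteType A B := Algebra.FiniteType.of_restrictScalars_finiteType F A B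
  let incl : B →ₐ[A] (Γ → F) := { B.val.toRingHom with commutes' := fun _ => rfl }
  have hinj : Function.Injective incl := Subtype.val_injective
  have hint : Algebra.IsIntegral A B := ⟨fun b =>
    (isIntegral_algHom_iff incl hinj).mp (alg_dsum_integral V ρ hspan hsh b.1 b.2)⟩
  have hfinite : Module.Finite A B := Algebra.IsIntegral.finite
  have hu : ∀ g, ∀ φ : B →ₐ[F] F, (∀ a : A, φ (algebraMap A B a) = evG V g a) →
      ∀ b : B, φ b = evG (dsum V ρ) g b := by
    intro g φ hφ b
    have h1 : φ = evG (dsum V ρ) g := by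
      apply unique_ext V ρ hspan (fun g => det_syl_of_common (hsh g)) g φ
      ext i j
      exact hφ (gen V i j)
    rw [h1]
  have hdim : ∀ g, Module.finrank F (B ⧸ fib B (evG V) g) =
      Module.finrank F (B ⧸ fib B (evG V) 1) := by
    intro g
    have hmap : fib B (evG V) 1 = (fib B (evG V) g).map (ltE (dsum V ρ) g : B →+* B) := by
      unfold fib
      rw [Ideal.map_map]
      have hc : (ltE (dsum V ρ) g : B →+* B).comp (algebraMap A B) =
          (algebraMap A B).comp (ltE V g : A →+* A) := by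
        ext a
        rfl
      rw [hc, ← Ideal.map_map]
      congr 1
      have h1 : RingHom.ker (evG V g) =
          (RingHom.ker (evG V 1)).comap (ltE V g : A →+* A) := by
        ext a
        rw [Ideal.mem_comap, RingHom.mem_ker, RingHom.mem_ker]
        show a.1 g = 0 ↔ a.1 (g * 1) = 0
        rw [mul_one]
      rw [h1, Ideal.map_comap_of_surjective]
      exact (ltE V g).surjective
    exact (Ideal.quotientEquivAlg _ _ (ltE (dsum V ρ) g) hmap).toLinearEquiv.finrank_eq
  obtain ⟨s, a, hs, ha⟩ := exists_denominator (F := F) (A := A) (B := B) (evG V)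
    (evG (dsum V ρ)) (fun _ _ => rfl) hu hdim (gen (dsum V ρ) (Sum.inr i) (Sum.inr j))
  refine ⟨s.1, s.2, hs, ?_⟩
  have h2 : (fun g => s.1 g * ρ g i j) = a.1 := by
    ext g
    exact ha g
  rw [h2]
  exact a.2

/-- The matrix coefficients of `ρ` belong to the algebra generated by those of `V` and its
dual. -/
theorem coef_mem_alg [IsAlgClosed F] [CharZero F]
    (hspan : Submodule.span F (Set.range ρ) = ⊤)
    (hsh : ∀ g, CommonEigenvalue (V g) (ρ g)) (i j : Fin 2) :
    (fun g => ρ g i j) ∈ alg V := by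
  choose s hsA hs1 hsx using fun p : Fin 2 × Fin 2 => exists_den V ρ hspan hsh p.1 p.2
  let J : Submodule F (Γ → F) :=
    { carrier := {f | f ∈ alg V ∧ ∀ p : Fin 2 × Fin 2, (fun g => f g * ρ g p.1 p.2) ∈ alg V}
      add_mem' := by
        rintro f f' ⟨h1, h2⟩ ⟨h1', h2'⟩
        refine ⟨Subalgebra.add_mem _ h1 h1', fun p => ?_⟩
        have : (fun g => (f + f') g * ρ g p.1 p.2) =
            (fun g => f g * ρ g p.1 p.2) + (fun g => f' g * ρ g p.1 p.2) := by
          ext g; simp [add_mul]
        rw [this]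
        exact Subalgebra.add_mem _ (h2 p) (h2' p)
      zero_mem' := by
        refine ⟨Subalgebra.zero_mem _, fun p => ?_⟩
        have : (fun g => (0 : Γ → F) g * ρ g p.1 p.2) = 0 := by ext g; simp
        rw [this]
        exact Subalgebra.zero_mem _
      smul_mem' := by
        rintro c f ⟨h1, h2⟩
        refine ⟨Subalgebra.smul_mem _ h1 c, fun p => ?_⟩
        have : (fun g => (c • f) g * ρ g p.1 p.2) = c • (fun g => f g * ρ g p.1 p.2) := by
          ext g; simp [mul_assoc]
        rw [this]
        exact Subalgebra.smul_mem _ (h2 p) c }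
  have hJA : ∀ f ∈ alg V, ∀ j ∈ J, f * j ∈ J := by
    rintro f hf j ⟨h1, h2⟩
    refine ⟨Subalgebra.mul_mem _ hf h1, fun p => ?_⟩
    have : (fun g => (f * j) g * ρ g p.1 p.2) = f * (fun g => j g * ρ g p.1 p.2) := by
      ext g; simp [mul_assoc]
    rw [this]
    exact Subalgebra.mul_mem _ hf (h2 p)
  have hJlt : ∀ f ∈ J, ∀ h, lt h f ∈ J := by
    rintro f ⟨h1, h2⟩ h
    refine ⟨alg_lt V h h1, fun p => ?_⟩
    have h3 : (fun g => lt h f g * ρ g p.1 p.2) =
        fun g => ∑ k, ρ h⁻¹ p.1 k * (lt h (fun g => f g * ρ g k p.2)) g := by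
      ext g
      have h4 : ρ g = ρ h⁻¹ * ρ (h * g) := by rw [← map_mul, inv_mul_cancel_left]
      rw [h4, Matrix.mul_apply, Finset.mul_sum]
      apply Finset.sum_congr rfl
      intro k _
      simp only [lt_apply]
      ring
    rw [h3]
    exact sum_mem_fun _ _ (fun k => lt h (fun g => f g * ρ g k p.2))
      fun k _ => alg_lt V h (h2 (k, p.2))
  have hprodA : ∀ t : Finset (Fin 2 × Fin 2), (∏ p ∈ t, s p) ∈ alg V := fun t =>
    Subalgebra.prod_mem _ fun p _ => hsA p
  have hS : (∏ p, s p) ∈ J := by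
    refine ⟨hprodA _, fun p => ?_⟩
    have : (fun g => (∏ p, s p) g * ρ g p.1 p.2) =
        (∏ q ∈ Finset.univ.erase p, s q) * (fun g => s p g * ρ g p.1 p.2) := by
      ext g
      rw [← Finset.prod_erase_mul Finset.univ s (Finset.mem_univ p)]
      simp only [Pi.mul_apply]
      ring
    rw [this]
    exact Subalgebra.mul_mem _ (hprodA _) (hsx p)
  have hS1 : (∏ p, s p) 1 ≠ 0 := by
    rw [Finset.prod_apply]
    exact Finset.prod_ne_zero_iff.mpr fun p _ => hs1 p
  have h1 := one_mem_of_stable (alg V) (fun f hf h => alg_rt V h hf) (fun f hf => alg_iv V hf)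
    J hJA (∏ p, s p) (hprodA _) (LF_alg V (hprodA _)) (fun h => hJlt _ hS h) hS1
  have h2 := h1.2 (i, j)
  simpa using h2

end two

end Pool.Agent.GO
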