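import Mathlib
import Pool.Agent.helper6.GO.Coef

/-!
# Tensor constructions and subquotients
-/

namespace Pool.Agent.GO

open Matrix Polynomial

section defs

variable {F : Type*} [Field F] {Γ : Type*}

/-- The matrix of `g` acting on `V ⊗ ⋯ ⊗ V ⊗ V^∨ ⊗ ⋯ ⊗ V^∨` (`a` copies of the representation
`V` and `b` copies of its dual), in the basis of pure tensors of basis vectors. -/
def tens [Group Γ] {ι : Type*} [Fintype ι] [DecidableEq ι] (V : Γ →* Matrix ι ι F) (a b : ℕ)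
    (g : Γ) : Matrix ((Fin a → ι) × (Fin b → ι)) ((Fin a → ι) × (Fin b → ι)) F :=
  Matrix.of fun p q => (∏ k, V g (p.1 k) (q.1 k)) * ∏ k, V g⁻¹ (q.2 k) (p.2 k)

/-- `ρ` is isomorphic to a subquotient of `T`: there are a `T`-stable subspace `Q` and an
equivariant surjection from `Q` onto the space of `ρ`. -/
def IsSubquotient {d κ : Type*} [Fintype d] [Fintype κ]
    (ρ : Γ → Matrix d d F) (T : Γ → Matrix κ κ F) : Prop :=
  ∃ (Q : Submodule F (κ → F)) (hQ : ∀ g, ∀ x ∈ Q, T g *ᵥ x ∈ Q) (π : Q →ₗ[F] (d → F)),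
    Function.Surjective π ∧ ∀ g, ∀ x : Q, π ⟨T g *ᵥ x.1, hQ g x.1 x.2⟩ = ρ g *ᵥ π x

/-- `ρ` is irreducible: it is nonzero and has no proper nonzero stable subspace. -/
def Irred {d : Type*} [Fintype d] (ρ : Γ → Matrix d d F) : Prop :=
  Nonempty d ∧ ∀ U : Submodule F (d → F), (∀ g, ∀ u ∈ U, ρ g *ᵥ u ∈ U) → U = ⊥ ∨ U = ⊤

end defs

section tens

variable {F : Type*} [Field F] {Γ : Type*} [Group Γ]
variable {ι : Type*} [Fintype ι] [DecidableEq ι] (V : Γ →* Matrix ι ι F)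

omit [DecidableEq ι] in
theorem sum_prod_fin {a : ℕ} (f : Fin a → ι → F) :
    ∑ r : Fin a → ι, ∏ k, f k (r k) = ∏ k, ∑ j, f k j := by
  rw [Finset.prod_univ_sum]
  simp

theorem tens_mul (a b : ℕ) (g h : Γ) : tens V a b (g * h) = tens V a b g * tens V a b h := by
  ext p q
  rw [Matrix.mul_apply]
  simp only [tens, Matrix.of_apply]
  have h1 : ∀ r : (Fin a → ι) × (Fin b → ι),
      (∏ k, V g (p.1 k) (r.1 k)) * (∏ k, V g⁻¹ (r.2 k) (p.2 k)) *
        ((∏ k, V h (r.1 k) (q.1 k)) * ∏ k, V h⁻¹ (q.2 k) (r.2 k)) =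
      (∏ k, V g (p.1 k) (r.1 k) * V h (r.1 k) (q.1 k)) *
        ∏ k, V h⁻¹ (q.2 k) (r.2 k) * V g⁻¹ (r.2 k) (p.2 k) := by
    intro r
    rw [Finset.prod_mul_distrib, Finset.prod_mul_distrib]
    ring
  rw [Finset.sum_congr rfl fun r _ => h1 r, Fintype.sum_prod_type]
  simp only
  rw [← Finset.sum_mul_sum]
  rw [sum_prod_fin (fun k j => V g (p.1 k) j * V h j (q.1 k)),
    sum_prod_fin (fun k j => V h⁻¹ (q.2 k) j * V g⁻¹ j (p.2 k))]
  congr 1
  · apply Finset.prod_congr rfl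
    intro k _
    rw [map_mul, Matrix.mul_apply]
  · apply Finset.prod_congr rfl
    intro k _
    rw [_root_.mul_inv_rev, map_mul, Matrix.mul_apply]

/-- the coefficient functions of the tensor constructions form a monoid -/
def coefMonoid : Submonoid (Γ → F) where
  carrier := {f | ∃ (a b : ℕ) (p q : (Fin a → ι) × (Fin b → ι)), f = fun g => tens V a b g p q}
  one_mem' := by
    refine ⟨0, 0, (Fin.elim0, Fin.elim0), (Fin.elim0, Fin.elim0), ?_⟩
    ext g
    simp [tens]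
  mul_mem' := by
    rintro f f' ⟨a, b, p, q, rfl⟩ ⟨a', b', p', q', rfl⟩
    refine ⟨a + a', b + b', (Fin.append p.1 p'.1, Fin.append p.2 p'.2),
      (Fin.append q.1 q'.1, Fin.append q.2 q'.2), ?_⟩
    ext g
    simp only [tens, Pi.mul_apply, Matrix.of_apply, Fin.prod_univ_add, Fin.append_left,
      Fin.append_right]
    ring

theorem alg_le_span {f : Γ → F} (hf : f ∈ alg V) :
    f ∈ Submodule.span F (coefMonoid V : Set (Γ → F)) := by
  have h1 : f ∈ Subalgebra.toSubmodule (alg V) := hf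
  unfold alg at h1
  rw [Algebra.adjoin_eq_span] at h1
  refine Submodule.span_mono ?_ h1
  have h2 : Submonoid.closure (Set.range (fun p : ι × ι => fun g => V g p.1 p.2) ∪
      Set.range (fun p : ι × ι => fun g => V g⁻¹ p.1 p.2)) ≤ coefMonoid V := by
    rw [Submonoid.closure_le]
    rintro _ (⟨p, rfl⟩ | ⟨p, rfl⟩)
    · refine ⟨1, 0, (fun _ => p.1, Fin.elim0), (fun _ => p.2, Fin.elim0), ?_⟩
      ext g
      simp [tens]
    · refine ⟨0, 1, (Fin.elim0, fun _ => p.2), (Fin.elim0, fun _ => p.1), ?_⟩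
      ext g
      simp [tens]
  exact h2

/-- the map `w ↦ (g ↦ p`-th coordinate of `T g w)` -/
def kap (a b : ℕ) (p : (Fin a → ι) × (Fin b → ι)) :
    ((Fin a → ι) × (Fin b → ι) → F) →ₗ[F] (Γ → F) where
  toFun w := fun g => (tens V a b g *ᵥ w) p
  map_add' w w' := by ext g; simp [Matrix.mulVec_add]
  map_smul' c w := by ext g; simp [Matrix.mulVec_smul]

theorem kap_equiv (a b : ℕ) (p : (Fin a → ι) × (Fin b → ι)) (h : Γ)
    (w : (Fin a → ι) × (Fin b → ι) → F) :
    kap V a b p (tens V a b h *ᵥ w) = rt h (kap V a b p w) := by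
  ext g
  show (tens V a b g *ᵥ (tens V a b h *ᵥ w)) p = (tens V a b (g * h) *ᵥ w) p
  rw [Matrix.mulVec_mulVec, tens_mul]

/-- the spaces of coefficient functions -/
def Cs (k : Σ a b : ℕ, (Fin a → ι) × (Fin b → ι)) : Submodule F (Γ → F) :=
  LinearMap.range (kap V k.1 k.2.1 k.2.2)

theorem Cs_rt (k : Σ a b : ℕ, (Fin a → ι) × (Fin b → ι)) (h : Γ) :
    Cs V k ≤ (Cs V k).comap (rt h : (Γ → F) →ₐ[F] (Γ → F)).toLinearMap := by
  rintro _ ⟨w, rfl⟩
  exact ⟨tens V k.1 k.2.1 h *ᵥ w, kap_equiv V _ _ _ h w⟩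

theorem iSup_rt (s : Finset (Σ a b : ℕ, (Fin a → ι) × (Fin b → ι))) (h : Γ) :
    (⨆ k ∈ s, Cs V k) ≤ (⨆ k ∈ s, Cs V k).comap (rt h : (Γ → F) →ₐ[F] (Γ → F)).toLinearMap := by
  refine iSup₂_le fun k hk => (Cs_rt V k h).trans ?_
  exact Submodule.comap_mono (le_iSup₂_of_le k hk le_rfl)

variable {d : Type*} [Fintype d] [DecidableEq d] (ρ : Γ →* Matrix d d F) (i₀ : d)

/-- the first row of coefficients of `ρ` -/
def rowMap : (d → F) →ₗ[F] (Γ → F) where
  toFun u := fun g => (ρ g *ᵥ u) i₀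
  map_add' w w' := by ext g; simp [Matrix.mulVec_add]
  map_smul' c w := by ext g; simp [Matrix.mulVec_smul]

theorem rowMap_equiv (h : Γ) (u : d → F) :
    rowMap ρ i₀ (ρ h *ᵥ u) = rt h (rowMap ρ i₀ u) := by
  ext g
  show (ρ g *ᵥ (ρ h *ᵥ u)) i₀ = (ρ (g * h) *ᵥ u) i₀
  rw [Matrix.mulVec_mulVec, map_mul]

theorem exists_subquot (hirr : Irred (fun g => ρ g))
    (s : Finset (Σ a b : ℕ, (Fin a → ι) × (Fin b → ι)))
    (hs : LinearMap.range (rowMap ρ i₀) ≤ ⨆ k ∈ s, Cs V k) :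
    ∃ a b : ℕ, IsSubquotient (fun g => ρ g) (tens V a b) := by
  classical
  induction s using Finset.induction_on with
  | empty =>
    exfalso
    have h1 : rowMap ρ i₀ (Pi.single i₀ 1) = 0 := by
      have h2 := hs ⟨Pi.single i₀ 1, rfl⟩
      simpa using h2
    have h3 := congrFun h1 1
    have h4 : rowMap ρ i₀ (Pi.single i₀ 1) 1 = 1 := by
      show (ρ 1 *ᵥ Pi.single i₀ 1) i₀ = 1
      rw [map_one, Matrix.one_mulVec, Pi.single_eq_same]
    rw [h4] at h3
    exact one_ne_zero h3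
  | insert k s hk ih =>
    set D := ⨆ k ∈ s, Cs V k with hD
    by_cases hle : LinearMap.range (rowMap ρ i₀) ≤ D
    · exact ih hle
    -- the map to the quotient by `D` is injective
    let q := D.mkQ
    let f : (d → F) →ₗ[F] (Γ → F) ⧸ D := q ∘ₗ rowMap ρ i₀
    have hker : LinearMap.ker f = ⊥ := by
      rcases hirr.2 (LinearMap.ker f) (by
        intro g u hu
        rw [LinearMap.mem_ker] at hu ⊢
        have h1 : rowMap ρ i₀ u ∈ D := (Submodule.Quotient.mk_eq_zero D).mp hu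
        have h2 := iSup_rt V s g h1
        show q (rowMap ρ i₀ (ρ g *ᵥ u)) = 0
        rw [rowMap_equiv]
        exact (Submodule.Quotient.mk_eq_zero D).mpr h2) with h | h
      · exact h
      · exfalso
        apply hle
        rintro _ ⟨u, rfl⟩
        have : u ∈ LinearMap.ker f := by rw [h]; trivial
        exact (Submodule.Quotient.mk_eq_zero D).mp this
    have hinj : Function.Injective f := LinearMap.ker_eq_bot.mp hker
    let κ := kap V k.1 k.2.1 k.2.2
    let Q : Submodule F ((Fin k.1 → ι) × (Fin k.2.1 → ι) → F) :=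
      (LinearMap.range f).comap (q ∘ₗ κ)
    let e : (d → F) ≃ₗ[F] LinearMap.range f := LinearEquiv.ofInjective f hinj
    -- equivariance modulo `D`
    have hrtD : ∀ h : Γ, ∀ x y : Γ → F, q x = q y → q (rt h x) = q (rt h y) := by
      intro h x y hxy
      have h1 : x - y ∈ D := (Submodule.Quotient.eq D).mp hxy
      have h2 := iSup_rt V s h h1
      apply (Submodule.Quotient.eq D).mpr
      have h3 : rt h (x - y) = rt h x - rt h y := map_sub _ _ _
      rw [← h3]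
      exact h2
    have hstep : ∀ h w u, q (κ w) = f u → q (κ (tens V k.1 k.2.1 h *ᵥ w)) = f (ρ h *ᵥ u) := by
      intro h w u hwu
      show q (kap V k.1 k.2.1 k.2.2 (tens V k.1 k.2.1 h *ᵥ w)) = q (rowMap ρ i₀ (ρ h *ᵥ u))
      rw [kap_equiv, rowMap_equiv]
      exact hrtD h _ _ hwu
    have hQ : ∀ h, ∀ w ∈ Q, tens V k.1 k.2.1 h *ᵥ w ∈ Q := by
      rintro h w ⟨u, hu⟩
      exact ⟨ρ h *ᵥ u, (hstep h w u hu.symm).symm⟩
    let π : Q →ₗ[F] (d → F) :=
      e.symm.toLinearMap ∘ₗ ((q ∘ₗ κ).restrict (fun w (hw : w ∈ Q) => hw))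
    have hπ : ∀ w : Q, f (π w) = q (κ w.1) := by
      intro w
      have h1 : (e (π w)).1 = q (κ w.1) := by
        show (e (e.symm _)).1 = _
        rw [LinearEquiv.apply_symm_apply]
        rfl
      exact h1
    refine ⟨k.1, k.2.1, Q, hQ, π, ?_, ?_⟩
    · intro u
      have h1 : rowMap ρ i₀ u ∈ ⨆ k' ∈ insert k s, Cs V k' := hs ⟨u, rfl⟩
      rw [Finset.iSup_insert, Submodule.mem_sup] at h1
      obtain ⟨_, ⟨w, rfl⟩, y, hy, hxy⟩ := h1
      have h2 : q (κ w) = f u := by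
        apply (Submodule.Quotient.eq D).mpr
        have : kap V k.1 k.2.1 k.2.2 w - rowMap ρ i₀ u = -y := by rw [← hxy]; abel
        show kap V k.1 k.2.1 k.2.2 w - rowMap ρ i₀ u ∈ D
        rw [this]
        exact D.neg_mem hy
      refine ⟨⟨w, ⟨u, h2.symm⟩⟩, ?_⟩
      apply hinj
      rw [hπ]
      exact h2
    · intro g x
      apply hinj
      rw [hπ]
      exact hstep g x.1 (π x) (hπ x).symm

end tens

section final

variable {F : Type*} [Field F] {Γ : Type*} [Group Γ]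
variable {ι : Type*} [Fintype ι] [DecidableEq ι] (V : Γ →* Matrix ι ι F)

theorem mem_iSup_Cs {f : Γ → F} (hf : f ∈ alg V) : f ∈ ⨆ k, Cs V k := by
  have h1 := alg_le_span V hf
  refine (Submodule.span_le.mpr ?_) h1
  rintro _ ⟨a, b, p, q, rfl⟩
  refine (le_iSup (Cs V) ⟨a, b, p⟩) ?_
  refine ⟨Pi.single q 1, ?_⟩
  ext g
  show (tens V a b g *ᵥ Pi.single q 1) p = _
  rw [Matrix.mulVec_single_one]
  rfl

/-- If the matrix coefficients of an irreducible `ρ` lie in the algebra generated by those of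
`V` and its dual then `ρ` is a subquotient of a tensor construction of `V`. -/
theorem subquot_of_coef {d : Type*} [Fintype d] [DecidableEq d] (ρ : Γ →* Matrix d d F)
    (hirr : Irred (fun g => ρ g)) (hcoef : ∀ i j, (fun g => ρ g i j) ∈ alg V) :
    ∃ a b : ℕ, IsSubquotient (fun g => ρ g) (tens V a b) := by
  classical
  have hne := hirr.1
  obtain ⟨i₀⟩ := hne
  have h1 : ∀ j, ∃ s : Finset (Σ a b : ℕ, (Fin a → ι) × (Fin b → ι)),
      (fun g => ρ g i₀ j) ∈ ⨆ k ∈ s, Cs V k := fun j =>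
    (Submodule.mem_iSup_iff_exists_finset).mp (mem_iSup_Cs V (hcoef i₀ j))
  choose s hs using h1
  apply exists_subquot V ρ i₀ hirr (Finset.univ.biUnion s)
  rintro _ ⟨u, rfl⟩
  have h2 : rowMap ρ i₀ u = ∑ j, u j • (fun g => ρ g i₀ j) := by
    ext g
    show (ρ g *ᵥ u) i₀ = _
    simp only [Matrix.mulVec, dotProduct, Finset.sum_apply, Pi.smul_apply, smul_eq_mul]
    exact Finset.sum_congr rfl fun _ _ => mul_comm _ _
  rw [h2]
  refine Submodule.sum_mem _ fun j _ => Submodule.smul_mem _ _ ?_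
  refine (iSup₂_le fun k hk => ?_ : (⨆ k ∈ s j, Cs V k) ≤ _) (hs j)
  exact le_iSup₂_of_le k (Finset.mem_biUnion.mpr ⟨j, Finset.mem_univ _, hk⟩) le_rfl

end final

end Pool.Agent.GO
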