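import Mathlib
import Pool.Agent.helper6.GO.Tens

/-!
# Burnside's theorem in dimension two
-/

namespace Pool.Agent.GO

open Matrix Polynomial

section irr

variable {F : Type*} [Field F] {Γ : Type*} [Group Γ]

theorem rank_one {E : Matrix (Fin 2) (Fin 2) F} (hE : E ≠ 0) (hdet : E.det = 0) :
    ∃ u w : Fin 2 → F, u ≠ 0 ∧ w ≠ 0 ∧ E = Matrix.vecMulVec u w := by
  rw [Matrix.det_fin_two] at hdet
  by_cases h00 : E 0 0 = 0
  · by_cases h01 : E 0 1 = 0
    · by_cases h10 : E 1 0 = 0
      · have h11 : E 1 1 ≠ 0 := by
          intro h11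
          apply hE
          ext i j
          fin_cases i <;> fin_cases j <;> simpa
        refine ⟨![0, E 1 1], ![0, 1], ?_, ?_, ?_⟩
        · intro h; exact h11 (by simpa using congrFun h 1)
        · intro h; simpa using congrFun h 1
        · ext i j
          fin_cases i <;> fin_cases j <;> simp [Matrix.vecMulVec_apply, h00, h01, h10]
      · refine ⟨![0, E 1 0], ![1, E 1 1 / E 1 0], ?_, ?_, ?_⟩
        · intro h; exact h10 (by simpa using congrFun h 1)
        · intro h; simpa using congrFun h 0
        · ext i j
          fin_cases i <;> fin_cases j <;> simp [Matrix.vecMulVec_apply, h00, h01]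
          field_simp
    · refine ⟨![E 0 1, E 1 1], ![E 0 0 / E 0 1, 1], ?_, ?_, ?_⟩
      · intro h; exact h01 (by simpa using congrFun h 0)
      · intro h; simpa using congrFun h 1
      · ext i j
        fin_cases i <;> fin_cases j <;> simp [Matrix.vecMulVec_apply]
        · field_simp
        · field_simp
          linear_combination (-1 : F) * hdet
  · refine ⟨![E 0 0, E 1 0], ![1, E 0 1 / E 0 0], ?_, ?_, ?_⟩
    · intro h; exact h00 (by simpa using congrFun h 0)
    · intro h; simpa using congrFun h 0
    · ext i j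
      fin_cases i <;> fin_cases j <;> simp [Matrix.vecMulVec_apply]
      · field_simp
      · field_simp
        linear_combination hdet

theorem span_top_of_irred [IsAlgClosed F] (ρ : Γ →* Matrix (Fin 2) (Fin 2) F)
    (hirr : Irred (fun g => ρ g)) : Submodule.span F (Set.range ρ) = ⊤ := by
  set R := Submodule.span F (Set.range ρ) with hR
  have hρR : ∀ g, ρ g ∈ R := fun g => Submodule.subset_span ⟨g, rfl⟩
  have hmulL : ∀ g, ∀ M ∈ R, ρ g * M ∈ R := by
    intro g M hM
    induction hM using Submodule.span_induction with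
    | mem M hM =>
      obtain ⟨h, rfl⟩ := hM
      rw [← map_mul]
      exact hρR _
    | zero => rw [mul_zero]; exact R.zero_mem
    | add M N _ _ hM hN => rw [mul_add]; exact R.add_mem hM hN
    | smul c M _ hM => rw [mul_smul_comm]; exact R.smul_mem c hM
  have hmulR : ∀ g, ∀ M ∈ R, M * ρ g ∈ R := by
    intro g M hM
    induction hM using Submodule.span_induction with
    | mem M hM =>
      obtain ⟨h, rfl⟩ := hM
      rw [← map_mul]
      exact hρR _
    | zero => rw [zero_mul]; exact R.zero_mem
    | add M N _ _ hM hN => rw [add_mul]; exact R.add_mem hM hN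
    | smul c M _ hM => rw [smul_mul_assoc]; exact R.smul_mem c hM
  -- a singular nonzero element
  have h1 : ∃ E ∈ R, E ≠ 0 ∧ E.det = 0 := by
    by_contra hcon
    push Not at hcon
    have hsc : ∀ g, ∃ c : F, ρ g = c • 1 := by
      intro g
      obtain ⟨c, hc⟩ := IsAlgClosed.exists_root (ρ g).charpoly (by
        rw [Matrix.charpoly_degree_eq_dim]; simp)
      refine ⟨c, ?_⟩
      by_contra hne
      have hmem : ρ g - c • 1 ∈ R := by
        refine R.sub_mem (hρR g) (R.smul_mem c ?_)
        rw [← map_one ρ]; exact hρR 1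
      refine hcon _ hmem (sub_ne_zero.mpr hne) ?_
      rw [Polynomial.IsRoot, Matrix.eval_charpoly] at hc
      have h6 : ρ g - c • 1 = -(Matrix.scalar (Fin 2) c - ρ g) := by
        rw [neg_sub]
        congr 1
        rw [Matrix.scalar_apply, Matrix.smul_one_eq_diagonal]
      rw [h6, Matrix.det_neg, hc, mul_zero]
    rcases hirr.2 (Submodule.span F {Pi.single 0 1}) (by
      intro g u hu
      obtain ⟨c, hc⟩ := hsc g
      show ρ g *ᵥ u ∈ _
      rw [hc, Matrix.smul_mulVec, Matrix.one_mulVec]
      exact Submodule.smul_mem _ _ hu) with h | h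
    · have h2 : (Pi.single 0 1 : Fin 2 → F) ∈ Submodule.span F {(Pi.single 0 1 : Fin 2 → F)} :=
        Submodule.subset_span rfl
      rw [h, Submodule.mem_bot] at h2
      simpa using congrFun h2 0
    · have h2 : (Pi.single 1 1 : Fin 2 → F) ∈ Submodule.span F {(Pi.single 0 1 : Fin 2 → F)} := by
        rw [h]; trivial
      obtain ⟨c, hc⟩ := Submodule.mem_span_singleton.mp h2
      simpa using congrFun hc 1
  obtain ⟨E, hER, hE0, hEdet⟩ := h1
  obtain ⟨u, w, hu, hw, rfl⟩ := rank_one hE0 hEdet
  -- all `v wᵀ` are in `R`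
  have h2 : ∀ v w', Matrix.vecMulVec u w' ∈ R → Matrix.vecMulVec v w' ∈ R := by
    intro v w' hw'
    let T : Submodule F (Fin 2 → F) :=
      { carrier := {x | Matrix.vecMulVec x w' ∈ R}
        add_mem' := by
          intro x y hx hy
          show Matrix.vecMulVec (x + y) w' ∈ R
          rw [Matrix.add_vecMulVec]
          exact R.add_mem hx hy
        zero_mem' := by
          show Matrix.vecMulVec 0 w' ∈ R
          rw [Matrix.zero_vecMulVec]
          exact R.zero_mem
        smul_mem' := by
          intro c x hx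
          show Matrix.vecMulVec (c • x) w' ∈ R
          rw [Matrix.smul_vecMulVec]
          exact R.smul_mem c hx }
    rcases hirr.2 T (by
      intro g x hx
      show Matrix.vecMulVec (ρ g *ᵥ x) w' ∈ R
      rw [← Matrix.mul_vecMulVec]
      exact hmulL g _ hx) with h | h
    · exfalso
      have h3 : u ∈ T := hw'
      rw [h, Submodule.mem_bot] at h3
      exact hu h3
    · have h3 : v ∈ T := by rw [h]; trivial
      exact h3
  have hA : ∀ v, Matrix.vecMulVec v w ∈ R := fun v => h2 v w hER
  -- a second direction
  have h3 : ∃ w' : Fin 2 → F, w 0 * w' 1 - w 1 * w' 0 ≠ 0 ∧ ∀ v, Matrix.vecMulVec v w' ∈ R := by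
    by_contra hcon
    push Not at hcon
    have hpar : ∀ g, w 0 * (w ᵥ* ρ g) 1 - w 1 * (w ᵥ* ρ g) 0 = 0 := by
      intro g
      by_contra hne
      obtain ⟨v, hv⟩ := hcon _ hne
      apply hv
      apply h2 v _
      rw [← Matrix.vecMulVec_mul]
      exact hmulR g _ (hA u)
    let T : Submodule F (Fin 2 → F) :=
      { carrier := {x | w 0 * x 0 + w 1 * x 1 = 0}
        add_mem' := by
          intro x y hx hy
          simp only [Set.mem_ofPred_eq, Pi.add_apply] at hx hy ⊢
          linear_combination hx + hy
        zero_mem' := by simp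
        smul_mem' := by
          intro c x hx
          simp only [Set.mem_ofPred_eq, Pi.smul_apply, smul_eq_mul] at hx ⊢
          linear_combination c * hx }
    rcases hirr.2 T (by
      intro g x hx
      have hx' : w 0 * x 0 + w 1 * x 1 = 0 := hx
      show w 0 * (ρ g *ᵥ x) 0 + w 1 * (ρ g *ᵥ x) 1 = 0
      have hp := hpar g
      simp only [Matrix.mulVec, Matrix.vecMul, dotProduct, Fin.sum_univ_two] at hp ⊢
      by_cases hw0 : w 0 = 0
      · have hw1 : w 1 ≠ 0 := by
          intro hw1
          apply hw
          ext i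
          fin_cases i
          · exact hw0
          · exact hw1
        rw [hw0] at hp hx' ⊢
        have hx1 : x 1 = 0 := by
          rcases mul_eq_zero.mp (by simpa using hx' : w 1 * x 1 = 0) with h | h
          · exact absurd h hw1
          · exact h
        have hp1 : ρ g 1 0 = 0 := by
          have : w 1 * w 1 * ρ g 1 0 = 0 := by linear_combination (-1 : F) * hp
          rcases mul_eq_zero.mp this with h | h
          · exact absurd (mul_self_eq_zero.mp h) hw1
          · exact h
        rw [hx1, hp1]
        ring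
      · have h5 : w 0 * (w 0 * (ρ g 0 0 * x 0 + ρ g 0 1 * x 1) +
            w 1 * (ρ g 1 0 * x 0 + ρ g 1 1 * x 1)) = 0 := by
          linear_combination (w 0 * ρ g 0 0 + w 1 * ρ g 1 0) * hx' + x 1 * hp
        exact (mul_eq_zero.mp h5).resolve_left hw0) with h | h
    · have h4 : (![w 1, -w 0] : Fin 2 → F) ∈ T := by
        show w 0 * w 1 + w 1 * (-w 0) = 0
        ring
      rw [h, Submodule.mem_bot] at h4
      apply hw
      ext i
      fin_cases i
      · have := congrFun h4 1
        simpa using this
      · have := congrFun h4 0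
        simpa using this
    · apply hw
      ext i
      fin_cases i
      · have h4 : (![1, 0] : Fin 2 → F) ∈ T := by rw [h]; trivial
        have h5 : w 0 * 1 + w 1 * 0 = 0 := h4
        simpa using h5
      · have h4 : (![0, 1] : Fin 2 → F) ∈ T := by rw [h]; trivial
        have h5 : w 0 * 0 + w 1 * 1 = 0 := h4
        simpa using h5
  obtain ⟨w', hΔ, hB⟩ := h3
  rw [eq_top_iff]
  rintro M -
  have h4 : M = Matrix.vecMulVec (fun i => (M i 0 * w' 1 - M i 1 * w' 0) /
        (w 0 * w' 1 - w 1 * w' 0)) w +
      Matrix.vecMulVec (fun i => (M i 1 * w 0 - M i 0 * w 1) /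
        (w 0 * w' 1 - w 1 * w' 0)) w' := by
    ext i j
    fin_cases j
    · simp only [Matrix.add_apply, Matrix.vecMulVec_apply]
      show M i 0 = _ * w 0 + _ * w' 0
      rw [div_mul_eq_mul_div, div_mul_eq_mul_div, ← add_div, eq_div_iff hΔ]
      ring
    · simp only [Matrix.add_apply, Matrix.vecMulVec_apply]
      show M i 1 = _ * w 1 + _ * w' 1
      rw [div_mul_eq_mul_div, div_mul_eq_mul_div, ← add_div, eq_div_iff hΔ]
      ring
  rw [h4]
  exact R.add_mem (hA _) (hB _)

end irr

end Pool.Agent.GO
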