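import Mathlib
import Pool.Agent.helper6.GO.Irr

/-!
# The criterion and the independence of `p`
-/

namespace Pool.Agent.GO

open Matrix Polynomial

section crit

variable {F : Type*} [Field F] {Γ : Type*} [Group Γ]

/-- The algebraic form: a common eigenvalue at every element of the group. -/
theorem criterion_group [IsAlgClosed F] [CharZero F] {ι : Type*} [Fintype ι] [DecidableEq ι]
    (V : Γ →* Matrix ι ι F) (ρ : Γ →* Matrix (Fin 2) (Fin 2) F) (hirr : Irred (fun g => ρ g))
    (h : ∀ g, CommonEigenvalue (V g) (ρ g)) :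
    ∃ a b : ℕ, IsSubquotient (fun g => ρ g) (tens V a b) :=
  subquot_of_coef V ρ hirr fun i j => coef_mem_alg V ρ (span_top_of_irred ρ hirr) h i j

theorem criterion [IsAlgClosed F] [CharZero F] [TopologicalSpace F] [IsTopologicalRing F]
    [T2Space F] [TopologicalSpace Γ] {ι : Type*} [Fintype ι] [DecidableEq ι]
    (V : Γ →* Matrix ι ι F) (hV : Continuous V)
    (ρ : Γ →* Matrix (Fin 2) (Fin 2) F) (hρ : Continuous ρ) (hirr : Irred (fun g => ρ g))
    (S : Set Γ) (hS : Dense S) (h : ∀ g ∈ S, CommonEigenvalue (V g) (ρ g)) :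
    ∃ a b : ℕ, IsSubquotient (fun g => ρ g) (tens V a b) := by
  apply criterion_group V ρ hirr
  intro g
  apply common_of_det_syl
  have hcont : Continuous (fun g => (syl (V g) (ρ g)).det) := by
    apply Continuous.matrix_det
    apply continuous_matrix
    intro p q
    simp only [syl, Matrix.of_apply]
    apply Continuous.sub
    · exact (hV.matrix_elem p.1 q.1).mul continuous_const
    · exact continuous_const.mul (hρ.matrix_elem q.2 p.2)
  have hcl : IsClosed {g | (syl (V g) (ρ g)).det = 0} := isClosed_singleton.preimage hcont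
  have hsub : S ⊆ {g | (syl (V g) (ρ g)).det = 0} := fun g hg => det_syl_of_common (h g hg)
  exact hcl.closure_subset_iff.mpr hsub (hS g)

/-- every eigenvalue of a subquotient is an eigenvalue -/
theorem root_of_subquot {κ d : Type*} [Fintype κ] [DecidableEq κ] [Fintype d] [DecidableEq d]
    (T : Γ → Matrix κ κ F) (ρ : Γ → Matrix d d F) (h : IsSubquotient ρ T) (g : Γ) (μ : F)
    (hμ : (ρ g).charpoly.IsRoot μ) : (T g).charpoly.IsRoot μ := by
  obtain ⟨Q, hQ, π, hπ, heq⟩ := h
  obtain ⟨v, hv, hv'⟩ := (isRoot_iff_exists _ _).mp hμ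
  -- polynomials in `T g` act on `Q` and on the quotient compatibly
  have hpoly : ∀ p : F[X], ∀ x : Q, ∃ hx : (aeval (T g) p) *ᵥ x.1 ∈ Q,
      π ⟨_, hx⟩ = (aeval (ρ g) p) *ᵥ π x := by
    intro p
    induction p using Polynomial.induction_on' with
    | add p q hp hq =>
      intro x
      obtain ⟨h1, e1⟩ := hp x
      obtain ⟨h2, e2⟩ := hq x
      have h3 : (aeval (T g) (p + q)) *ᵥ x.1 = (aeval (T g) p) *ᵥ x.1 + (aeval (T g) q) *ᵥ x.1 := by
        rw [map_add, Matrix.add_mulVec]
      refine ⟨by rw [h3]; exact Q.add_mem h1 h2, ?_⟩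
      have h4 : (⟨(aeval (T g) (p + q)) *ᵥ x.1, by rw [h3]; exact Q.add_mem h1 h2⟩ : Q) =
          ⟨_, h1⟩ + ⟨_, h2⟩ := Subtype.ext h3
      rw [h4, map_add, e1, e2, map_add, Matrix.add_mulVec]
    | monomial k c =>
      have hpow : ∀ k : ℕ, ∀ x : Q, ∃ hx : (T g ^ k) *ᵥ x.1 ∈ Q,
          π ⟨_, hx⟩ = (ρ g ^ k) *ᵥ π x := by
        intro k
        induction k with
        | zero =>
          intro x
          have h3 : (T g ^ 0) *ᵥ x.1 = x.1 := by rw [pow_zero, Matrix.one_mulVec]
          refine ⟨by rw [h3]; exact x.2, ?_⟩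
          have h4 : (⟨(T g ^ 0) *ᵥ x.1, by rw [h3]; exact x.2⟩ : Q) = x := Subtype.ext h3
          rw [h4, pow_zero, Matrix.one_mulVec]
        | succ k ih =>
          intro x
          obtain ⟨h1, e1⟩ := ih ⟨T g *ᵥ x.1, hQ g x.1 x.2⟩
          have h3 : (T g ^ (k + 1)) *ᵥ x.1 = (T g ^ k) *ᵥ (T g *ᵥ x.1) := by
            rw [pow_succ, ← Matrix.mulVec_mulVec]
          refine ⟨by rw [h3]; exact h1, ?_⟩
          have h4 : (⟨(T g ^ (k + 1)) *ᵥ x.1, by rw [h3]; exact h1⟩ : Q) = ⟨_, h1⟩ :=
            Subtype.ext h3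
          rw [h4, e1, heq, pow_succ, ← Matrix.mulVec_mulVec]
      intro x
      obtain ⟨h1, e1⟩ := hpow k x
      have h3 : (aeval (T g) (monomial k c)) *ᵥ x.1 = c • ((T g ^ k) *ᵥ x.1) := by
        rw [aeval_monomial, ← Algebra.smul_def, Matrix.smul_mulVec]
      refine ⟨by rw [h3]; exact Q.smul_mem c h1, ?_⟩
      have h4 : (⟨(aeval (T g) (monomial k c)) *ᵥ x.1, by rw [h3]; exact Q.smul_mem c h1⟩ : Q) =
          c • ⟨_, h1⟩ := Subtype.ext h3
      rw [h4, map_smul, e1, aeval_monomial, ← Algebra.smul_def, Matrix.smul_mulVec]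
  obtain ⟨x, hx⟩ := hπ v
  obtain ⟨h1, e1⟩ := hpoly (T g).charpoly x
  have h2 : (aeval (T g) (T g).charpoly) *ᵥ x.1 = 0 := by
    rw [Matrix.aeval_self_charpoly, Matrix.zero_mulVec]
  have h3 : (⟨(aeval (T g) (T g).charpoly) *ᵥ x.1, h1⟩ : Q) = 0 := Subtype.ext h2
  rw [h3, map_zero, hx] at e1
  have h4 : (aeval (ρ g) (T g).charpoly) *ᵥ v = ((T g).charpoly.eval μ) • v := by
    generalize (T g).charpoly = p
    have hpow : ∀ k : ℕ, (ρ g ^ k) *ᵥ v = (μ ^ k) • v := by
      intro k
      induction k with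
      | zero => simp
      | succ k ih => rw [pow_succ, ← Matrix.mulVec_mulVec, hv', Matrix.mulVec_smul, ih,
          smul_smul, pow_succ, mul_comm]
    induction p using Polynomial.induction_on' with
    | add p q hp hq => rw [map_add, Matrix.add_mulVec, hp, hq, eval_add, add_smul]
    | monomial k c =>
      rw [aeval_monomial, ← Algebra.smul_def, Matrix.smul_mulVec, hpow, smul_smul,
        eval_monomial]
  rw [h4] at e1
  rcases smul_eq_zero.mp e1.symm with h5 | h5
  · exact h5
  · exact absurd h5 hv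

end crit

section compatible

/-- Places with sets of Frobenius elements: the Frobenius elements outside any finite set of
places are dense (for the absolute Galois group of a number field this is Chebotarev's
theorem). -/
structure FrobeniusData (Γ : Type*) [TopologicalSpace Γ] where
  /-- the places -/
  Place : Type
  /-- the Frobenius elements at a place -/
  frob : Place → Set Γ
  dense : ∀ T : Set Place, T.Finite → Dense (⋃ v ∈ Tᶜ, frob v)

theorem common_root_transfer {E F : Type*} [Field E] [Field F] [IsAlgClosed F] (ι : E →+* F)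
    {P Q : E[X]} (hP : P ≠ 0) (h : ¬ IsCoprime P Q) :
    ∃ μ : F, (P.map ι).IsRoot μ ∧ (Q.map ι).IsRoot μ := by
  have h1 : ¬ IsCoprime (P.map ι) (Q.map ι) := by
    rw [Polynomial.isCoprime_map]
    exact h
  have hP' : P.map ι ≠ 0 := (Polynomial.map_ne_zero_iff ι.injective).mpr hP
  classical
  set G := EuclideanDomain.gcd (P.map ι) (Q.map ι) with hG
  have hG0 : G ≠ 0 := by
    intro h0
    exact hP' (EuclideanDomain.gcd_eq_zero_iff.mp h0).1
  have hdeg : G.degree ≠ 0 := by
    intro hd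
    apply h1
    rw [← EuclideanDomain.gcd_isUnit_iff, ← hG]
    exact Polynomial.isUnit_iff_degree_eq_zero.mpr hd
  obtain ⟨μ, hμ⟩ := IsAlgClosed.exists_root G hdeg
  exact ⟨μ, hμ.dvd (EuclideanDomain.gcd_dvd_left _ _), hμ.dvd (EuclideanDomain.gcd_dvd_right _ _)⟩

theorem not_coprime_of_common_root {E F : Type*} [Field E] [Field F] (ι : E →+* F)
    {P Q : E[X]} {μ : F} (h1 : (P.map ι).IsRoot μ) (h2 : (Q.map ι).IsRoot μ) :
    ¬ IsCoprime P Q := by
  intro h
  have h3 : IsCoprime (P.map ι) (Q.map ι) := (Polynomial.isCoprime_map ι).mpr h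
  obtain ⟨a, b, hab⟩ := h3
  have h4 := congrArg (Polynomial.eval μ) hab
  rw [eval_add, eval_mul, eval_mul, h1, h2, mul_zero, mul_zero, add_zero, eval_one] at h4
  exact zero_ne_one h4

end compatible

end Pool.Agent.GO
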